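import Pool.Agent.R63.Defs

/-!
# Counting maps

The number of the maps `φ : Fin q → V` which map a given set of three indices onto a member of a family of 3-sets.
-/

namespace Pool.Agent.R63

open Finset

private theorem r63c_one {V α : Type*} [DecidableEq V] [Fintype V] [Fintype α] [DecidableEq α]
    (hα : Fintype.card α = 3) {t : Finset V} (ht : t.card = 3) :
    ((univ : Finset (α → V)).filter fun ψ => univ.image ψ = t).card = 6 := by
  have h1 : Fintype.card (α ↪ {y // y ∈ t}) = 6 := by
    rw [Fintype.card_embedding_eq, Fintype.card_coe, ht, hα]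
    rfl
  rw [← h1, ← Finset.card_univ]
  symm
  refine Finset.card_bij (fun e _ x => (e x : V)) ?_ ?_ ?_
  · intro e _
    rw [Finset.mem_filter]
    refine ⟨Finset.mem_univ _, ?_⟩
    refine Finset.eq_of_subset_of_card_le ?_ ?_
    · intro y hy
      obtain ⟨x, _, rfl⟩ := Finset.mem_image.1 hy
      exact (e x).2
    · have h2 : Function.Injective fun x => (e x : V) := Subtype.val_injective.comp e.injective
      rw [ht, Finset.card_image_of_injective _ h2, Finset.card_univ, hα]
  · intro e _ e' _ h
    ext x
    exact congrFun h x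
  · intro ψ hψ
    have h2 := (Finset.mem_filter.1 hψ).2
    have h3 : Function.Injective ψ := by
      rw [← Set.injOn_univ, ← Finset.coe_univ]
      refine Finset.card_image_iff.1 ?_
      rw [h2, ht, Finset.card_univ, hα]
    have h4 : ∀ x, ψ x ∈ t := fun x => h2 ▸ Finset.mem_image_of_mem ψ (Finset.mem_univ x)
    refine ⟨⟨fun x => ⟨ψ x, h4 x⟩, ?_⟩, Finset.mem_univ _, rfl⟩
    intro x y hxy
    exact h3 (Subtype.ext_iff.1 hxy)

private theorem r63c_all {V α : Type*} [DecidableEq V] [Fintype V] [Fintype α] [DecidableEq α]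
    (hα : Fintype.card α = 3) {F : Finset (Finset V)} (hF : ∀ t ∈ F, t.card = 3) :
    ((univ : Finset (α → V)).filter fun ψ => univ.image ψ ∈ F).card = 6 * F.card := by
  have h1 : ((univ : Finset (α → V)).filter fun ψ => univ.image ψ ∈ F) =
      F.biUnion fun t => (univ : Finset (α → V)).filter fun ψ => univ.image ψ = t := by
    ext ψ
    simp only [Finset.mem_filter, Finset.mem_univ, true_and, Finset.mem_biUnion]
    constructor
    · intro h
      exact ⟨_, h, rfl⟩
    · rintro ⟨t, ht, h⟩
      rw [h]
      exact ht
  rw [h1, Finset.card_biUnion]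
  · rw [Finset.sum_congr rfl fun t ht => r63c_one hα (hF t ht), Finset.sum_const, smul_eq_mul,
      mul_comm]
  · intro t _ t' _ htt
    rw [Function.onFun, Finset.disjoint_left]
    intro ψ h2 h3
    exact htt ((Finset.mem_filter.1 h2).2.symm.trans (Finset.mem_filter.1 h3).2)

theorem cnt3 {V : Type*} [Fintype V] [DecidableEq V] {q : ℕ} {u : Finset (Fin q)}
    (hu : u.card = 3) {F : Finset (Finset V)} (hF : ∀ t ∈ F, t.card = 3) :
    ((univ : Finset (Fin q → V)).filter fun φ => u.image φ ∈ F).card * Fintype.card V ^ 3 =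
      6 * F.card * Fintype.card V ^ q := by
  classical
  have hα : Fintype.card {x : Fin q // x ∈ u} = 3 := by rw [Fintype.card_coe, hu]
  have hβ : Fintype.card {x : Fin q // ¬ x ∈ u} + 3 = q := by
    have h1 := Fintype.card_subtype_compl (fun x : Fin q => x ∈ u)
    have h2 : u.card ≤ q := by
      have := Finset.card_le_univ u
      rwa [Fintype.card_fin] at this
    rw [hα, Fintype.card_fin] at h1
    omega
  have h1 : ((univ : Finset (Fin q → V)).filter fun φ => u.image φ ∈ F).card =
      (((univ : Finset ({x : Fin q // x ∈ u} → V)).filter fun ψ => univ.image ψ ∈ F) ×ˢ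
        (univ : Finset ({x : Fin q // ¬ x ∈ u} → V))).card := by
    refine Finset.card_equiv (Equiv.piEquivPiSubtypeProd (fun x : Fin q => x ∈ u) fun _ => V) ?_
    intro φ
    have h2 : u.image φ = univ.image fun x : {x : Fin q // x ∈ u} => φ x := by
      ext y
      simp only [Finset.mem_image, Finset.mem_univ, true_and, Subtype.exists]
      constructor
      · rintro ⟨x, hx, rfl⟩
        exact ⟨x, hx, rfl⟩
      · rintro ⟨x, hx, h⟩
        exact ⟨x, hx, h⟩
    rw [Finset.mem_filter, Finset.mem_product, Finset.mem_filter, h2]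
    simp only [Finset.mem_univ, true_and, and_true, Equiv.piEquivPiSubtypeProd_apply]
  rw [h1, Finset.card_product, r63c_all hα hF, Finset.card_univ, Fintype.card_fun, mul_assoc,
    ← pow_add, hβ]

end Pool.Agent.R63
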