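import Pool.Agent.R63.Cnt

/-!
# Counting maps, two index sets

Let `l` be the index in `u'` outside of `u`. Double counting of the pairs `(φ, v)` for which `φ`, changed to `v` at `l`,
satisfies both conditions: every `φ` has at most `k` values `v` (the image of `u'` contains the image of `u ∩ u'`). The
number of the `φ` which satisfy the first condition is given by `cnt3`.
-/

namespace Pool.Agent.R63

open Finset

private theorem cntb_img {V : Type*} [DecidableEq V] {q : ℕ} {w : Finset (Fin q)} {l : Fin q}
    (hl : l ∉ w) (φ : Fin q → V) (v : V) : w.image (Function.update φ l v) = w.image φ := by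
  refine Finset.image_congr fun x hx => ?_
  refine Function.update_of_ne ?_ _ _
  rintro rfl
  exact hl hx

theorem cnt4 {V : Type*} [Fintype V] [DecidableEq V] {q : ℕ} {u u' : Finset (Fin q)}
    (hu : u.card = 3) (hu' : u'.card = 3) (h2 : (u ∩ u').card = 2) {F : Finset (Finset V)}
    (hF : ∀ t ∈ F, t.card = 3) {k : ℕ} (hk : ∀ e : Finset V, e.card = 2 → dg F e ≤ k) :
    ((univ : Finset (Fin q → V)).filter fun φ => u.image φ ∈ F ∧ u'.image φ ∈ F).card *
      Fintype.card V ^ 4 ≤ 6 * F.card * k * Fintype.card V ^ q := by
  set A := (univ : Finset (Fin q → V)).filter fun φ => u.image φ ∈ F with hA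
  set B := (univ : Finset (Fin q → V)).filter fun φ => u.image φ ∈ F ∧ u'.image φ ∈ F with hB
  obtain ⟨l, hl⟩ : ∃ l, u' \ u = {l} := by
    rw [← Finset.card_eq_one]
    have h := Finset.card_sdiff_add_card_inter u' u
    rw [Finset.inter_comm u' u, h2, hu'] at h
    omega
  have hlu : l ∉ u := (Finset.mem_sdiff.1 (hl ▸ Finset.mem_singleton_self l)).2
  have hlw : l ∉ u ∩ u' := fun h => hlu (Finset.mem_inter.1 h).1
  have hu2 : u' = insert l (u ∩ u') := by
    conv_lhs => rw [← Finset.sdiff_union_inter u' u, hl, Finset.inter_comm u' u]
    rfl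
  set S := (A ×ˢ (univ : Finset V)).filter fun p => Function.update p.1 l p.2 ∈ B with hS
  have h1 : B.card * Fintype.card V ≤ S.card := by
    have h3 : B.card * Fintype.card V = (B ×ˢ (univ : Finset V)).card := by
      rw [Finset.card_product, Finset.card_univ]
    rw [h3]
    refine Finset.card_le_card_of_injOn
      (fun p => (Function.update p.1 l p.2, p.1 l)) ?_ ?_
    · rintro ⟨ψ, w⟩ hp
      have hψ : ψ ∈ B := (Finset.mem_product.1 hp).1
      have h4 : Function.update (Function.update ψ l w) l (ψ l) = ψ := by
        rw [Function.update_idem, Function.update_eq_self]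
      refine Finset.mem_filter.2 ⟨Finset.mem_product.2 ⟨?_, Finset.mem_univ _⟩, ?_⟩
      · refine Finset.mem_filter.2 ⟨Finset.mem_univ _, ?_⟩
        show u.image (Function.update ψ l w) ∈ F
        rw [cntb_img hlu]
        exact (Finset.mem_filter.1 hψ).2.1
      · show Function.update (Function.update ψ l w) l (ψ l) ∈ B
        rw [h4]
        exact hψ
    · rintro ⟨ψ, w⟩ _ ⟨ψ', w'⟩ _ h
      have h5 : Function.update ψ l w = Function.update ψ' l w' := congrArg Prod.fst h
      have h6 : ψ l = ψ' l := congrArg Prod.snd h
      have h7 : w = w' := by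
        have h8 := congrFun h5 l
        rwa [Function.update_self, Function.update_self] at h8
      refine Prod.ext ?_ h7
      funext x
      by_cases hx : x = l
      · rw [hx]
        exact h6
      · have h8 := congrFun h5 x
        rwa [Function.update_of_ne hx, Function.update_of_ne hx] at h8
  have h2' : S.card ≤ k * A.card := by
    refine Finset.card_le_mul_card_image_of_maps_to (f := Prod.fst) (fun p hp => ?_) k ?_
    · exact (Finset.mem_product.1 (Finset.mem_filter.1 hp).1).1
    · intro φ _
      set e := (u ∩ u').image φ with he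
      have hle : e.card ≤ 2 := h2 ▸ Finset.card_image_le
      have key : ∀ p ∈ S.filter (fun p => p.1 = φ), insert p.2 e ∈ F ∧ p.2 ∉ e ∧ e.card = 2 := by
        intro p hp
        obtain ⟨h3, h4⟩ := Finset.mem_filter.1 hp
        obtain ⟨_, h5⟩ := Finset.mem_filter.1 h3
        have h6 : u'.image (Function.update p.1 l p.2) ∈ F := (Finset.mem_filter.1 h5).2.2
        have h7 : u'.image (Function.update p.1 l p.2) = insert p.2 e := by
          rw [h4]
          conv_lhs => rw [hu2]
          rw [Finset.image_insert, Function.update_self, cntb_img hlw]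
        rw [h7] at h6
        have h8 := hF _ h6
        have h9 : p.2 ∉ e := by
          intro h10
          rw [Finset.insert_eq_of_mem h10] at h8
          omega
        rw [Finset.card_insert_of_notMem h9] at h8
        exact ⟨h6, h9, by omega⟩
      rcases (S.filter (fun p => p.1 = φ)).eq_empty_or_nonempty with h0 | ⟨p₀, hp₀⟩
      · rw [h0, Finset.card_empty]
        exact Nat.zero_le _
      · refine le_trans ?_ (hk e (key p₀ hp₀).2.2)
        refine Finset.card_le_card_of_injOn (fun p => insert p.2 e) ?_ ?_
        · intro p hp
          exact Finset.mem_filter.2 ⟨(key p hp).1, Finset.subset_insert _ _⟩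
        · intro p hp p' hp' h
          have h3 : insert p.2 e = insert p'.2 e := h
          have h4 : p.2 ∈ insert p'.2 e := h3 ▸ Finset.mem_insert_self _ _
          have h5 : p.2 = p'.2 := (Finset.mem_insert.1 h4).resolve_right (key p hp).2.1
          have h6 : p.1 = φ := (Finset.mem_filter.1 hp).2
          have h7 : p'.1 = φ := (Finset.mem_filter.1 hp').2
          exact Prod.ext (h6.trans h7.symm) h5
  have h3 := cnt3 (V := V) hu hF
  calc B.card * Fintype.card V ^ 4 = (B.card * Fintype.card V) * Fintype.card V ^ 3 := by ring
    _ ≤ (k * A.card) * Fintype.card V ^ 3 := Nat.mul_le_mul_right _ (h1.trans h2')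
    _ = k * (A.card * Fintype.card V ^ 3) := by ring
    _ = 6 * F.card * k * Fintype.card V ^ q := by rw [h3]; ring

end Pool.Agent.R63
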