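import Pool.Agent.R63.Ex
import Pool.Agent.RSV.LinR

/-!
# The converse

`conv`: the linear part (`RSV.lin_part`) of an extremal family is closed: three different members which contain the
pairs of a 3-set have together at most six points. `lin_card`: the pairs contained in the members of a linear family
are different. `lin_hit`: different members of a linear family contain different members of `D`.
-/

namespace Pool.Agent.R63

open Finset

private theorem cv_sdiff {V : Type*} [DecidableEq V] {t u e : Finset V} (ht : t.card = 3)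
    (he : e ⊆ u) (he2 : e.card = 2) (het : e ⊆ t) : (t \ u).card ≤ 1 := by
  have h1 := card_sdiff_add_card_inter t u
  have h2 : e.card ≤ (t ∩ u).card := card_le_card (subset_inter het he)
  omega

private theorem cv_three {V : Type*} [DecidableEq V] {u t1 t2 t3 e1 e2 e3 : Finset V}
    (hu : u.card = 3) (h1 : t1.card = 3) (h2 : t2.card = 3) (h3 : t3.card = 3)
    (a1 : e1 ⊆ u) (a2 : e2 ⊆ u) (a3 : e3 ⊆ u) (c1 : e1.card = 2) (c2 : e2.card = 2)
    (c3 : e3.card = 2) (s1 : e1 ⊆ t1) (s2 : e2 ⊆ t2) (s3 : e3 ⊆ t3) :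
    (t1 ∪ t2 ∪ t3).card ≤ 6 := by
  have d1 := cv_sdiff h1 a1 c1 s1
  have d2 := cv_sdiff h2 a2 c2 s2
  have d3 := cv_sdiff h3 a3 c3 s3
  have hsub : t1 ∪ t2 ∪ t3 ⊆ ((u ∪ (t1 \ u)) ∪ (t2 \ u)) ∪ (t3 \ u) := by
    intro x hx
    simp only [mem_union, mem_sdiff] at hx ⊢
    tauto
  have e1 := card_le_card hsub
  have e2 := card_union_le ((u ∪ (t1 \ u)) ∪ (t2 \ u)) (t3 \ u)
  have e3 := card_union_le (u ∪ (t1 \ u)) (t2 \ u)
  have e4 := card_union_le u (t1 \ u)
  omega

private theorem cv_same {V : Type*} [DecidableEq V] {u t : Finset V} {a b c : V}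
    (ht : t.card = 3) (hu : u = {a, b, c}) (hc : u.card = 3) (h1 : a ∈ t) (h2 : b ∈ t)
    (h3 : c ∈ t) : u = t := by
  apply eq_of_subset_of_card_le
  · intro x hx
    rw [hu] at hx
    simp only [mem_insert, mem_singleton] at hx
    rcases hx with rfl | rfl | rfl <;> assumption
  · omega

theorem conv {n : ℕ} (hn : 6 ≤ n) : ∃ T : Finset (Finset (Fin n)), Cl T ∧ Lin T ∧
    3 * f n ≤ 3 * T.card + 2 * n := by
  obtain ⟨H, h3, h6, hc⟩ := exists_f n
  have hN : Pool.Agent.RSV.NoTri H := by
    intro e he f hf g hg hef hfg heg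
    by_contra hle
    rw [not_lt] at hle
    obtain ⟨S, hS, hS6⟩ := exists_superset_card_eq hle (by rw [Fintype.card_fin]; exact hn)
    have h := h6 S hS6
    have hsub : ({e, f, g} : Finset (Finset (Fin n))) ⊆ H.filter (· ⊆ S) := by
      intro x hx
      simp only [mem_insert, mem_singleton] at hx
      rw [mem_filter]
      rcases hx with rfl | rfl | rfl
      · exact ⟨he, fun y hy => hS (mem_union_left _ (mem_union_left _ hy))⟩
      · exact ⟨hf, fun y hy => hS (mem_union_left _ (mem_union_right _ hy))⟩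
      · exact ⟨hg, fun y hy => hS (mem_union_right _ hy)⟩
    have h' := card_le_card hsub
    rw [card_eq_three.2 ⟨e, f, g, hef, heg, hfg, rfl⟩] at h'
    omega
  obtain ⟨T, hT, hL, hcard, -⟩ := Pool.Agent.RSV.lin_part (H := H) h3 hN
  refine ⟨T, ⟨fun t ht => h3 t (hT ht), ?_⟩, hL, ?_⟩
  · intro u hu hp
    obtain ⟨a, b, c, hab, hac, hbc, rfl⟩ := card_eq_three.1 hu
    obtain ⟨t1, ht1, s1⟩ := hp {a, b} (by intro x hx; simp only [mem_insert, mem_singleton] at hx ⊢; tauto)
      (card_pair hab)
    obtain ⟨t2, ht2, s2⟩ := hp {b, c} (by intro x hx; simp only [mem_insert, mem_singleton] at hx ⊢; tauto)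
      (card_pair hbc)
    obtain ⟨t3, ht3, s3⟩ := hp {a, c} (by intro x hx; simp only [mem_insert, mem_singleton] at hx ⊢; tauto)
      (card_pair hac)
    have a1 : a ∈ t1 := s1 (by simp)
    have b1 : b ∈ t1 := s1 (by simp)
    have b2 : b ∈ t2 := s2 (by simp)
    have c2 : c ∈ t2 := s2 (by simp)
    have a3 : a ∈ t3 := s3 (by simp)
    have c3 : c ∈ t3 := s3 (by simp)
    by_cases h12 : t1 = t2
    · rw [cv_same (h3 t1 (hT ht1)) rfl hu a1 b1 (h12 ▸ c2)]
      exact ht1
    by_cases h23 : t2 = t3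
    · rw [cv_same (h3 t2 (hT ht2)) rfl hu (h23 ▸ a3) b2 c2]
      exact ht2
    by_cases h13 : t1 = t3
    · rw [cv_same (h3 t1 (hT ht1)) rfl hu a1 b1 (h13 ▸ c3)]
      exact ht1
    exfalso
    have h := hN t1 (hT ht1) t2 (hT ht2) t3 (hT ht3) h12 h23 h13
    have h' := cv_three hu (h3 t1 (hT ht1)) (h3 t2 (hT ht2)) (h3 t3 (hT ht3))
      (e1 := {a, b}) (e2 := {b, c}) (e3 := {a, c})
      (by intro x hx; simp only [mem_insert, mem_singleton] at hx ⊢; tauto)
      (by intro x hx; simp only [mem_insert, mem_singleton] at hx ⊢; tauto)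
      (by intro x hx; simp only [mem_insert, mem_singleton] at hx ⊢; tauto)
      (card_pair hab) (card_pair hbc) (card_pair hac) s1 s2 s3
    omega
  · rw [← hc]
    rw [Fintype.card_fin] at hcard
    exact hcard

theorem lin_card {n : ℕ} {T : Finset (Finset (Fin n))} (h3 : ∀ t ∈ T, t.card = 3)
    (hl : Lin T) : 6 * T.card ≤ n ^ 2 := by
  have h1 : (T.biUnion fun t => powersetCard 2 t).card = ∑ t ∈ T, (powersetCard 2 t).card := by
    apply card_biUnion
    intro t ht u hu htu
    show Disjoint (powersetCard 2 t) (powersetCard 2 u)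
    rw [disjoint_left]
    intro e he he'
    rw [mem_powersetCard] at he he'
    have h := card_le_card (subset_inter he.1 he'.1)
    have h' := hl t ht u hu htu
    omega
  have h2 : ∑ t ∈ T, (powersetCard 2 t).card = 3 * T.card := by
    rw [sum_congr rfl (g := fun _ => 3), sum_const, smul_eq_mul, mul_comm]
    intro t ht
    rw [card_powersetCard, h3 t ht]
    rfl
  have h4 : (T.biUnion fun t => powersetCard 2 t) ⊆ powersetCard 2 (univ : Finset (Fin n)) := by
    intro e he
    rw [mem_biUnion] at he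
    obtain ⟨t, -, he⟩ := he
    rw [mem_powersetCard] at he ⊢
    exact ⟨subset_univ _, he.2⟩
  have h5 := card_le_card h4
  rw [h1, h2, card_powersetCard, card_univ, Fintype.card_fin] at h5
  have h6 : n.choose 2 * 2 ≤ n * n := by
    rw [Nat.choose_two_right]
    exact le_trans (Nat.div_mul_le_self _ _) (Nat.mul_le_mul le_rfl (Nat.sub_le _ _))
  nlinarith

theorem lin_hit {V : Type*} [DecidableEq V] {D T : Finset (Finset V)} (hl : Lin T)
    (hD : Hit D T) : T.card ≤ D.card := by
  obtain ⟨h2, h⟩ := hD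
  choose! e he hs using h
  refine card_le_card_of_injOn e (fun t ht => he t ht) ?_
  intro t ht u hu heq
  by_contra hne
  have h1 : e t ⊆ t ∩ u := subset_inter (hs t ht) (by
    have : e t = e u := heq
    rw [this]
    exact hs u hu)
  have h3 := card_le_card h1
  rw [h2 _ (he t ht)] at h3
  have h4 := hl t ht u hu hne
  omega

end Pool.Agent.R63
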