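import Pool.Agent.R63.Defs

/-!
# Graphs and families of triangles

The set of all triangles of a graph is a closed family, and every closed family is the set of all triangles of a graph. Sets of
edges which destroy all triangles correspond to sets `D` of pairs with `Hit D T`.
-/

namespace Pool.Agent.R63

open Finset

private theorem gr_pair {V : Type*} [DecidableEq V] {e : Finset V} (he : e.card = 2) :
    ∃ a b : V, a ≠ b ∧ e = {a, b} := card_eq_two.1 he

private theorem gr_inj {V : Type*} [DecidableEq V] {p q : Sym2 V}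
    (h : p.toFinset = q.toFinset) : p = q := by
  refine Sym2.ext fun x => ?_
  rw [← Sym2.mem_toFinset, h, Sym2.mem_toFinset]

private theorem gr_tau {V : Type*} {G : SimpleGraph V} {D : Finset (Sym2 V)}
    (h : (G.deleteEdges (D : Set (Sym2 V))).CliqueFree 3) : tau G ≤ D.card :=
  Nat.sInf_le ⟨D, h, rfl⟩

private theorem gr_exists {V : Type*} [Fintype V] (G : SimpleGraph V) :
    ∃ D : Finset (Sym2 V), (G.deleteEdges (D : Set (Sym2 V))).CliqueFree 3 ∧ D.card = tau G := by
  classical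
  have h1 : {m | ∃ D : Finset (Sym2 V), (G.deleteEdges (D : Set (Sym2 V))).CliqueFree 3 ∧
      D.card = m}.Nonempty := by
    refine ⟨_, univ, ?_, rfl⟩
    intro s hs
    have h2 : 1 < s.card := by
      rw [hs.card_eq]
      norm_num
    obtain ⟨a, ha, b, hb, hab⟩ := one_lt_card.1 h2
    have h3 := hs.isClique (mem_coe.2 ha) (mem_coe.2 hb) hab
    rw [SimpleGraph.deleteEdges_adj] at h3
    exact h3.2 (mem_coe.2 (mem_univ _))
  exact Nat.sInf_mem h1

theorem gr1 {V : Type*} [Fintype V] [DecidableEq V] (G : SimpleGraph V) :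
    ∃ T : Finset (Finset V), Cl T ∧ T.card = tr G ∧ ∀ D, Hit D T → tau G ≤ D.card := by
  classical
  obtain ⟨T, hT⟩ : ∃ T : Finset (Finset V), ∀ s, s ∈ T ↔ G.IsNClique 3 s :=
    ⟨univ.filter fun s => G.IsNClique 3 s, fun s => by simp⟩
  refine ⟨T, ⟨fun t ht => ((hT t).1 ht).card_eq, ?_⟩, ?_, ?_⟩
  · intro u hu h
    rw [hT]
    refine ⟨?_, hu⟩
    intro a ha b hb hab
    obtain ⟨t, ht, het⟩ := h {a, b} (by
      intro x hx
      rw [mem_insert, mem_singleton] at hx
      rcases hx with rfl | rfl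
      · exact mem_coe.1 ha
      · exact mem_coe.1 hb) (card_pair hab)
    exact ((hT t).1 ht).isClique (mem_coe.2 (het (mem_insert_self _ _)))
      (mem_coe.2 (het (mem_insert_of_mem (mem_singleton_self _)))) hab
  · unfold tr
    have h1 : {s : Finset V | G.IsNClique 3 s} = (T : Set (Finset V)) := by
      ext s
      rw [Set.mem_ofPred_eq, mem_coe, hT]
    rw [h1, Set.ncard_coe_finset]
  · intro D hD
    obtain ⟨D', hD'⟩ : ∃ D' : Finset (Sym2 V), ∀ p, p ∈ D' ↔ p.toFinset ∈ D :=
      ⟨univ.filter fun p => p.toFinset ∈ D, fun p => by simp⟩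
    have h1 : D'.card ≤ D.card :=
      card_le_card_of_injOn (fun p => p.toFinset) (fun p hp => (hD' p).1 hp)
        (fun p _ q _ h => gr_inj h)
    refine le_trans (gr_tau (D := D') ?_) h1
    intro s hs
    have h2 : s ∈ T := by
      rw [hT]
      refine ⟨?_, hs.card_eq⟩
      intro a ha b hb hab
      have h3 := hs.isClique ha hb hab
      rw [SimpleGraph.deleteEdges_adj] at h3
      exact h3.1
    obtain ⟨e, heD, hes⟩ := hD.2 s h2
    obtain ⟨a, b, hab, rfl⟩ := gr_pair (hD.1 e heD)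
    have h3 := hs.isClique (mem_coe.2 (hes (mem_insert_self _ _)))
      (mem_coe.2 (hes (mem_insert_of_mem (mem_singleton_self _)))) hab
    rw [SimpleGraph.deleteEdges_adj] at h3
    refine h3.2 (mem_coe.2 ((hD' _).2 ?_))
    rw [Sym2.toFinset_mk_eq]
    exact heD

theorem gr2 {V : Type*} [Fintype V] [DecidableEq V] {T : Finset (Finset V)} (hT : Cl T) :
    ∃ G : SimpleGraph V, tr G = T.card ∧ ∃ D, Hit D T ∧ D.card ≤ tau G := by
  classical
  obtain ⟨G, hG⟩ : ∃ G : SimpleGraph V, ∀ a b, G.Adj a b ↔ a ≠ b ∧ ∃ t ∈ T, a ∈ t ∧ b ∈ t :=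
    ⟨{ Adj := fun a b => a ≠ b ∧ ∃ t ∈ T, a ∈ t ∧ b ∈ t
       symm := ⟨fun a b h => ⟨h.1.symm, h.2.imp fun t ht => ⟨ht.1, ht.2.2, ht.2.1⟩⟩⟩
       loopless := ⟨fun a h => h.1 rfl⟩ }, fun a b => Iff.rfl⟩
  have hcl : ∀ s : Finset V, G.IsNClique 3 s ↔ s ∈ T := by
    intro s
    constructor
    · intro hs
      refine hT.2 s hs.card_eq fun e hes he => ?_
      obtain ⟨a, b, hab, rfl⟩ := gr_pair he
      obtain ⟨-, t, ht, hat, hbt⟩ := (hG a b).1 (hs.isClique
        (mem_coe.2 (hes (mem_insert_self _ _)))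
        (mem_coe.2 (hes (mem_insert_of_mem (mem_singleton_self _)))) hab)
      refine ⟨t, ht, fun x hx => ?_⟩
      rw [mem_insert, mem_singleton] at hx
      rcases hx with rfl | rfl
      · exact hat
      · exact hbt
    · intro hs
      exact ⟨fun a ha b hb hab => (hG a b).2 ⟨hab, s, hs, mem_coe.1 ha, mem_coe.1 hb⟩,
        hT.1 s hs⟩
  refine ⟨G, ?_, ?_⟩
  · unfold tr
    have h1 : {s : Finset V | G.IsNClique 3 s} = (T : Set (Finset V)) := by
      ext s
      rw [Set.mem_ofPred_eq, mem_coe, hcl]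
    rw [h1, Set.ncard_coe_finset]
  · obtain ⟨D', hfree, hcard⟩ := gr_exists G
    refine ⟨(D'.filter fun p => ¬ p.IsDiag).image fun p => p.toFinset, ⟨?_, ?_⟩, ?_⟩
    · intro e he
      rw [mem_image] at he
      obtain ⟨p, hp, rfl⟩ := he
      rw [mem_filter] at hp
      exact Sym2.card_toFinset_of_not_isDiag p hp.2
    · intro t ht
      by_contra hcon
      push Not at hcon
      refine hfree t ⟨?_, hT.1 t ht⟩
      intro a ha b hb hab
      rw [SimpleGraph.deleteEdges_adj]
      refine ⟨(hG a b).2 ⟨hab, t, ht, mem_coe.1 ha, mem_coe.1 hb⟩, fun h => ?_⟩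
      refine hcon (s(a, b)).toFinset (mem_image.2 ⟨s(a, b), mem_filter.2 ⟨mem_coe.1 h, ?_⟩, rfl⟩) ?_
      · rw [Sym2.mk_isDiag_iff]
        exact hab
      · rw [Sym2.toFinset_mk_eq]
        intro x hx
        rw [mem_insert, mem_singleton] at hx
        rcases hx with rfl | rfl
        · exact mem_coe.1 ha
        · exact mem_coe.1 hb
    · rw [← hcard]
      exact card_image_le.trans (card_filter_le _ _)

theorem tau_le_tr {V : Type*} [Fintype V] [DecidableEq V] (G : SimpleGraph V) : tau G ≤ tr G := by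
  classical
  obtain ⟨T, hT, hcard, htau⟩ := gr1 G
  have h1 : ∀ t : T, ∃ e : Finset V, e ⊆ t.1 ∧ e.card = 2 := fun t =>
    exists_subset_card_eq (by rw [hT.1 t.1 t.2]; norm_num)
  choose g hg using h1
  refine le_trans (htau (univ.image g) ⟨?_, ?_⟩) ?_
  · intro e he
    rw [mem_image] at he
    obtain ⟨t, -, rfl⟩ := he
    exact (hg t).2
  · intro t ht
    exact ⟨g ⟨t, ht⟩, mem_image_of_mem _ (mem_univ _), (hg ⟨t, ht⟩).1⟩
  · refine card_image_le.trans ?_
    rw [card_univ, Fintype.card_coe, hcard]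

end Pool.Agent.R63
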