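import Pool.Agent.R63.Conv
import Pool.Agent.R63.Gr

/-!
# From a removal lemma to a bound for the extremal function

`rem`: the graph whose triangles are the members of a closed linear family (`conv`) has at most `n ^ 2 / 6` triangles
(`lin_card`), and the triangles have no common edges (`lin_hit`), so that `tau` is the number of triangles.
-/

namespace Pool.Agent.R63

open Finset

theorem rem {n : ℕ} (hn : 6 ≤ n) : ∃ G : SimpleGraph (Fin n), 6 * tr G ≤ n ^ 2 ∧
    3 * f n ≤ 3 * tau G + 2 * n := by
  obtain ⟨T, hC, hL, hc⟩ := conv hn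
  obtain ⟨G, htr, D, hD, hle⟩ := gr2 hC
  refine ⟨G, ?_, ?_⟩
  · rw [htr]
    exact lin_card hC.1 hL
  · have h := lin_hit hL hD
    omega

end Pool.Agent.R63
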