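import Mathlib

/-!
# A sum of exponentials

Half of the exponent is used to sum over `i`, the other half is bounded by means of
`L ≤ 3 * (i₀ + 1) * log 2 ≤ 6 * i * log 2`.
-/

namespace Pool.Agent.R63

open Finset

private theorem sumE_summable {α b : ℝ} (hα : 0 < α) (hb : 0 < b) :
    Summable fun i : ℕ => Real.exp (-(b * ((i : ℝ) * Real.log 2) ^ α)) := by
  have hl : 0 < Real.log 2 := Real.log_pos (by norm_num)
  have h1 := isLittleO_exp_neg_mul_rpow_atTop hb (-(2 / α))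
  have ht : Filter.Tendsto (fun i : ℕ => ((i : ℝ) * Real.log 2) ^ α) Filter.atTop
      Filter.atTop :=
    (tendsto_rpow_atTop hα).comp (tendsto_natCast_atTop_atTop.atTop_mul_const hl)
  have h2 := h1.comp_tendsto ht
  have hs : Summable fun i : ℕ => (((i : ℝ) * Real.log 2) ^ α) ^ (-(2 / α)) := by
    have h3 : Summable fun i : ℕ => (i : ℝ) ^ (-2 : ℝ) * (Real.log 2) ^ (-2 : ℝ) :=
      (Real.summable_nat_rpow.2 (by norm_num)).mul_right _
    refine h3.congr fun i => ?_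
    have hi : (0 : ℝ) ≤ (i : ℝ) * Real.log 2 := by positivity
    rw [← Real.rpow_mul hi, ← Real.mul_rpow (Nat.cast_nonneg i) hl.le]
    congr 1
    field_simp
  refine summable_of_isBigO_nat hs ?_
  refine (h2.isBigO).congr_left fun i => ?_
  simp only [Function.comp_apply]
  congr 1
  ring

theorem sumE {α c : ℝ} (hα : 0 < α) (hc : 0 < c) : ∃ C > (0 : ℝ), ∃ c' > (0 : ℝ),
    ∀ i₀ N : ℕ, 1 ≤ i₀ → ∀ L : ℝ, 0 ≤ L → L ≤ 3 * ((i₀ : ℝ) + 1) * Real.log 2 →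
      ∑ i ∈ Icc i₀ N, Real.exp (-(c * ((i : ℝ) * Real.log 2) ^ α)) ≤
        C * Real.exp (-(c' * L ^ α)) := by
  have hl : 0 < Real.log 2 := Real.log_pos (by norm_num)
  have hc2 : 0 < c / 2 := by positivity
  have hs := sumE_summable hα hc2
  have h6 : (0 : ℝ) < 6 ^ α := Real.rpow_pos_of_pos (by norm_num) α
  have hnn : 0 ≤ ∑' i : ℕ, Real.exp (-(c / 2 * ((i : ℝ) * Real.log 2) ^ α)) :=
    tsum_nonneg fun i => (Real.exp_pos _).le
  refine ⟨(∑' i : ℕ, Real.exp (-(c / 2 * ((i : ℝ) * Real.log 2) ^ α))) + 1, by linarith,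
    c / 2 / 6 ^ α, by positivity, ?_⟩
  intro i₀ N hi₀ L hL hL2
  have hterm : ∀ i ∈ Icc i₀ N, Real.exp (-(c * ((i : ℝ) * Real.log 2) ^ α)) ≤
      Real.exp (-(c / 2 * ((i : ℝ) * Real.log 2) ^ α)) *
        Real.exp (-(c / 2 / 6 ^ α * L ^ α)) := by
    intro i hi
    rw [← Real.exp_add]
    apply Real.exp_le_exp.2
    have hi1 : (i₀ : ℝ) ≤ i := by exact_mod_cast (Finset.mem_Icc.1 hi).1
    have hi0 : (1 : ℝ) ≤ i₀ := by exact_mod_cast hi₀
    have hL3 : L ≤ 6 * ((i : ℝ) * Real.log 2) := by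
      refine hL2.trans ?_
      nlinarith
    have hy : (0 : ℝ) ≤ (i : ℝ) * Real.log 2 := by positivity
    have h7 : L ^ α ≤ 6 ^ α * ((i : ℝ) * Real.log 2) ^ α := by
      rw [← Real.mul_rpow (by norm_num) hy]
      exact Real.rpow_le_rpow hL hL3 hα.le
    have h8 : c / 2 / 6 ^ α * L ^ α ≤ c / 2 * ((i : ℝ) * Real.log 2) ^ α := by
      rw [div_mul_eq_mul_div, div_le_iff₀ h6]
      calc c / 2 * L ^ α ≤ c / 2 * (6 ^ α * ((i : ℝ) * Real.log 2) ^ α) :=
            mul_le_mul_of_nonneg_left h7 hc2.le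
        _ = c / 2 * ((i : ℝ) * Real.log 2) ^ α * 6 ^ α := by ring
    linarith
  calc ∑ i ∈ Icc i₀ N, Real.exp (-(c * ((i : ℝ) * Real.log 2) ^ α))
      ≤ ∑ i ∈ Icc i₀ N, Real.exp (-(c / 2 * ((i : ℝ) * Real.log 2) ^ α)) *
          Real.exp (-(c / 2 / 6 ^ α * L ^ α)) := Finset.sum_le_sum hterm
    _ = (∑ i ∈ Icc i₀ N, Real.exp (-(c / 2 * ((i : ℝ) * Real.log 2) ^ α))) *
          Real.exp (-(c / 2 / 6 ^ α * L ^ α)) := by rw [Finset.sum_mul]
    _ ≤ _ := by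
      refine mul_le_mul_of_nonneg_right ?_ (Real.exp_pos _).le
      have := hs.sum_le_tsum (Icc i₀ N) fun i _ => (Real.exp_pos _).le
      linarith

end Pool.Agent.R63
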