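import Pool.Agent.R63.Mas
import Pool.Agent.R63.Rem
import Pool.Agent.R63.SumE

/-!
# Exponential savings

The extremal function has exponential savings in a power of the logarithm if and only if the
triangle removal lemma holds with the corresponding bound. Left to right: `mas` and `sumE`. Right to
left: `rem` with `δ = 1 / (6 * n)`.
-/

namespace Pool.Agent.R63

open Finset

private theorem core_tau_le {n : ℕ} (G : SimpleGraph (Fin n)) : (tau G : ℝ) ≤ (n : ℝ) ^ 2 := by
  have h1 : tau G ≤ (univ : Finset (Sym2 (Fin n))).card := by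
    refine Nat.sInf_le ⟨univ, ?_, rfl⟩
    intro s hs
    obtain ⟨hc, hcard⟩ := hs
    obtain ⟨a, ha, b, hb, hab⟩ := Finset.one_lt_card.1 (by rw [hcard]; norm_num : 1 < s.card)
    have h2 := hc ha hb hab
    rw [SimpleGraph.deleteEdges_adj] at h2
    exact h2.2 (by simp)
  have h2 : (univ : Finset (Sym2 (Fin n))).card = (n + 1).choose 2 := by
    rw [Finset.card_univ, Sym2.card, Fintype.card_fin]
  have h3 : (n + 1).choose 2 ≤ n ^ 2 := by
    rw [Nat.choose_two_right]
    have h4 : (n + 1) * (n + 1 - 1) = (n + 1) * n := by simp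
    rw [h4]
    refine Nat.div_le_of_le_mul ?_
    rcases Nat.eq_zero_or_pos n with h | h
    · subst h; simp
    · nlinarith
  have h5 : tau G ≤ n ^ 2 := h1.trans (h2.le.trans h3)
  exact_mod_cast h5

private theorem core_rpow {x α : ℝ} (hx : 0 ≤ x) (hα : 0 < α) (hα1 : α ≤ 1) : x ^ α ≤ 1 + x := by
  rcases le_total x 1 with h | h
  · have := Real.rpow_le_one hx h hα.le
    linarith
  · have := Real.rpow_le_rpow_of_exponent_le h hα1
    rw [Real.rpow_one] at this
    linarith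

private theorem core_exp {n : ℕ} (hn : 1 ≤ n) {c α : ℝ} (hc : 0 < c) (hc1 : c ≤ 1) (hα : 0 < α)
    (hα1 : α ≤ 1) : 1 ≤ Real.exp 1 * n * Real.exp (-(c * Real.log n ^ α)) := by
  have hn0 : (0 : ℝ) < n := by exact_mod_cast hn
  have hlog : 0 ≤ Real.log n := Real.log_nonneg (by exact_mod_cast hn)
  have h1 : c * Real.log n ^ α ≤ 1 + Real.log n := by
    have h2 := core_rpow hlog hα hα1
    have h3 : 0 ≤ Real.log n ^ α := Real.rpow_nonneg hlog _
    nlinarith
  have h4 : Real.exp 1 * n = Real.exp (1 + Real.log n) := by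
    rw [Real.exp_add, Real.exp_log hn0]
  rw [h4, ← Real.exp_add]
  exact Real.one_le_exp (by linarith)

theorem corE {α : ℝ} (hα : 0 < α) (hα1 : α ≤ 1) :
    (∃ c > (0 : ℝ), ∃ C : ℝ, ∀ n : ℕ, 2 ≤ n →
      (f n : ℝ) ≤ C * (n : ℝ) ^ 2 * Real.exp (-(c * Real.log n ^ α))) ↔
    ∃ c > (0 : ℝ), ∃ C : ℝ, ∀ δ : ℝ, 0 < δ → δ < 1 → ∀ (n : ℕ) (G : SimpleGraph (Fin n)),
      (tr G : ℝ) ≤ δ * (n : ℝ) ^ 3 →
      (tau G : ℝ) ≤ C * (n : ℝ) ^ 2 * Real.exp (-(c * Real.log (1 / δ) ^ α)) := by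
  constructor
  · rintro ⟨c, hc, C, h⟩
    obtain ⟨C₂, hC₂, c₂, hc₂, hsum⟩ := sumE hα hc
    have hC₁ : 0 ≤ max C 0 := le_max_right _ _
    refine ⟨c₂, hc₂, 6000 * (max C 0) * C₂ + Real.exp (c₂ * Real.log 512 ^ α), ?_⟩
    intro δ hδ hδ1 n G hG
    have hL : 0 ≤ Real.log (1 / δ) := Real.log_nonneg (by rw [le_div_iff₀ hδ]; linarith)
    have hn2 : (0 : ℝ) ≤ (n : ℝ) ^ 2 := by positivity
    by_cases hδ' : δ * 512 ≤ 1
    · have hΦ : ∀ i : ℕ, 3 ≤ i → (f (2 ^ i) : ℝ) / 4 ^ i ≤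
          max C 0 * Real.exp (-(c * ((i : ℝ) * Real.log 2) ^ α)) := by
        intro i hi
        have h2 : 2 ≤ 2 ^ i := by
          calc 2 = 2 ^ 1 := by norm_num
            _ ≤ 2 ^ i := Nat.pow_le_pow_right (by norm_num) (by omega)
        have h3 := h (2 ^ i) h2
        push_cast at h3
        rw [Real.log_pow] at h3
        have h4 : ((2 : ℝ) ^ i) ^ 2 = 4 ^ i := by
          rw [← pow_mul, mul_comm, pow_mul]
          norm_num
        rw [h4] at h3
        rw [div_le_iff₀ (by positivity)]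
        refine h3.trans ?_
        have h5 : C ≤ max C 0 := le_max_left _ _
        have h6 : 0 ≤ (4 : ℝ) ^ i * Real.exp (-(c * ((i : ℝ) * Real.log 2) ^ α)) := by positivity
        nlinarith
      obtain ⟨i₀, hi₀, hL', hmas⟩ := mas hΦ hδ hδ'
      obtain ⟨N, hN⟩ := hmas n G hG
      have h1 := hsum i₀ N (by omega) (Real.log (1 / δ)) hL hL'
      rw [← Finset.mul_sum] at hN
      refine hN.trans ?_
      have h2 : max C 0 * ∑ i ∈ Icc i₀ N, Real.exp (-(c * ((i : ℝ) * Real.log 2) ^ α)) ≤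
          max C 0 * (C₂ * Real.exp (-(c₂ * Real.log (1 / δ) ^ α))) :=
        mul_le_mul_of_nonneg_left h1 hC₁
      have h3 : 6000 * (n : ℝ) ^ 2 *
          (max C 0 * ∑ i ∈ Icc i₀ N, Real.exp (-(c * ((i : ℝ) * Real.log 2) ^ α))) ≤
          6000 * (n : ℝ) ^ 2 * (max C 0 * (C₂ * Real.exp (-(c₂ * Real.log (1 / δ) ^ α)))) :=
        mul_le_mul_of_nonneg_left h2 (by positivity)
      refine h3.trans ?_
      have h4 : 0 ≤ Real.exp (c₂ * Real.log 512 ^ α) * (n : ℝ) ^ 2 *
          Real.exp (-(c₂ * Real.log (1 / δ) ^ α)) := by positivity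
      linarith
    · have hL2 : Real.log (1 / δ) ≤ Real.log 512 := by
        refine Real.log_le_log (by positivity) ?_
        rw [div_le_iff₀ hδ]
        linarith [not_le.1 hδ']
      have h1 : Real.log (1 / δ) ^ α ≤ Real.log 512 ^ α := Real.rpow_le_rpow hL hL2 hα.le
      have h2 : 1 ≤ Real.exp (c₂ * Real.log 512 ^ α) *
          Real.exp (-(c₂ * Real.log (1 / δ) ^ α)) := by
        rw [← Real.exp_add]
        refine Real.one_le_exp ?_
        have := mul_le_mul_of_nonneg_left h1 hc₂.le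
        linarith
      refine (core_tau_le G).trans ?_
      have h3 : 0 ≤ 6000 * (max C 0) * C₂ * (n : ℝ) ^ 2 *
          Real.exp (-(c₂ * Real.log (1 / δ) ^ α)) := by positivity
      have h4 : (n : ℝ) ^ 2 * 1 ≤ (n : ℝ) ^ 2 * (Real.exp (c₂ * Real.log 512 ^ α) *
          Real.exp (-(c₂ * Real.log (1 / δ) ^ α))) := mul_le_mul_of_nonneg_left h2 hn2
      linarith
  · rintro ⟨c, hc, C, h⟩
    have hC₁ : 0 ≤ max C 0 := le_max_right _ _
    set c' : ℝ := min c 1 with hc'
    have hc'0 : 0 < c' := lt_min hc one_pos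
    have hc'1 : c' ≤ 1 := min_le_right _ _
    have hc'c : c' ≤ c := min_le_left _ _
    refine ⟨c', hc'0, max C 0 + 25 * Real.exp 1, ?_⟩
    intro n hn
    have hn1 : (1 : ℝ) ≤ n := by exact_mod_cast (by omega : 1 ≤ n)
    have hn0 : (0 : ℝ) < n := by linarith
    have hlog : 0 ≤ Real.log n := Real.log_nonneg hn1
    have hkey := core_exp (by omega : 1 ≤ n) hc'0 hc'1 hα hα1
    set e := Real.exp (-(c' * Real.log n ^ α)) with he
    have he0 : 0 < e := Real.exp_pos _
    by_cases hn6 : 6 ≤ n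
    · obtain ⟨G, hG1, hG2⟩ := rem hn6
      have hδ : (0 : ℝ) < 1 / (6 * n) := by positivity
      have hδ1 : (1 : ℝ) / (6 * n) < 1 := by
        rw [div_lt_one (by positivity)]
        linarith
      have h1 : (tr G : ℝ) ≤ 1 / (6 * n) * (n : ℝ) ^ 3 := by
        have h2 : (6 : ℝ) * tr G ≤ (n : ℝ) ^ 2 := by exact_mod_cast hG1
        have h3 : (1 : ℝ) / (6 * n) * (n : ℝ) ^ 3 = (n : ℝ) ^ 2 / 6 := by
          field_simp
        rw [h3]
        linarith
      have h2 := h _ hδ hδ1 n G h1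
      have h3 : (1 : ℝ) / (1 / (6 * n)) = 6 * n := one_div_one_div _
      rw [h3] at h2
      have h4 : Real.log n ≤ Real.log (6 * n) := Real.log_le_log hn0 (by linarith)
      have h5 : c' * Real.log n ^ α ≤ c * Real.log (6 * n) ^ α := by
        have h6 : Real.log n ^ α ≤ Real.log (6 * n) ^ α := Real.rpow_le_rpow hlog h4 hα.le
        have h7 : 0 ≤ Real.log n ^ α := Real.rpow_nonneg hlog _
        calc c' * Real.log n ^ α ≤ c * Real.log n ^ α := mul_le_mul_of_nonneg_right hc'c h7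
          _ ≤ _ := mul_le_mul_of_nonneg_left h6 hc.le
      have h6 : Real.exp (-(c * Real.log (6 * n) ^ α)) ≤ e := Real.exp_le_exp.2 (by linarith)
      have h7 : (tau G : ℝ) ≤ max C 0 * (n : ℝ) ^ 2 * e := by
        refine h2.trans ?_
        have h8 : C * (n : ℝ) ^ 2 ≤ max C 0 * (n : ℝ) ^ 2 :=
          mul_le_mul_of_nonneg_right (le_max_left _ _) (by positivity)
        exact mul_le_mul h8 h6 (Real.exp_pos _).le (by positivity)
      have h8 : (3 : ℝ) * f n ≤ 3 * tau G + 2 * n := by exact_mod_cast hG2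
      have h9 : (n : ℝ) ≤ Real.exp 1 * (n : ℝ) ^ 2 * e := by
        have := mul_le_mul_of_nonneg_left hkey hn0.le
        calc (n : ℝ) = n * 1 := (mul_one _).symm
          _ ≤ n * (Real.exp 1 * n * e) := this
          _ = _ := by ring
      have h10 : 0 ≤ Real.exp 1 * (n : ℝ) ^ 2 * e := by positivity
      linarith
    · have h1 : f n ≤ n ^ 3 := (f_le n).trans (Nat.choose_le_pow n 3)
      have h2 : (f n : ℝ) ≤ (n : ℝ) ^ 3 := by exact_mod_cast h1
      have h3 : (n : ℝ) ≤ 5 := by exact_mod_cast (by omega : n ≤ 5)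
      have h4 : (n : ℝ) ^ 3 ≤ 25 * Real.exp 1 * (n : ℝ) ^ 2 * e := by
        have h5 : (n : ℝ) ≤ Real.exp 1 * (n : ℝ) ^ 2 * e := by
          have := mul_le_mul_of_nonneg_left hkey hn0.le
          calc (n : ℝ) = n * 1 := (mul_one _).symm
            _ ≤ n * (Real.exp 1 * n * e) := this
            _ = _ := by ring
        have h6 : (n : ℝ) ^ 2 ≤ 25 := by nlinarith
        have h7 : 0 ≤ Real.exp 1 * (n : ℝ) ^ 2 * e := by positivity
        calc (n : ℝ) ^ 3 = (n : ℝ) ^ 2 * n := by ring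
          _ ≤ 25 * (Real.exp 1 * (n : ℝ) ^ 2 * e) := mul_le_mul h6 h5 hn0.le (by norm_num)
          _ = _ := by ring
      have h5 : 0 ≤ max C 0 * (n : ℝ) ^ 2 * e := by positivity
      linarith

end Pool.Agent.R63
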