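import Mathlib

/-!
# A sum of powers

`(i + 1) ^ (-(K + 1)) ≤ (1 / K) * (i ^ (-K) - (i + 1) ^ (-K))`, so the sum of the `i ^ (-(K + 1))`, `i ≥ i₀`, is at most
`(1 + 1 / K) * i₀ ^ (-K)`.
-/

namespace Pool.Agent.R63

open Finset

private theorem sump_step {K : ℝ} (hK : 0 < K) {i : ℕ} (hi : 1 ≤ i) :
    ((i + 1 : ℕ) : ℝ) ^ (-(K + 1)) ≤ 1 / K * ((i : ℝ) ^ (-K) - ((i + 1 : ℕ) : ℝ) ^ (-K)) := by
  have hi0 : (0 : ℝ) < i := by exact_mod_cast hi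
  have hj0 : (0 : ℝ) < ((i + 1 : ℕ) : ℝ) := by exact_mod_cast Nat.succ_pos i
  set j : ℝ := ((i + 1 : ℕ) : ℝ) with hj
  have hij : (i : ℝ) = j * (1 - 1 / j) := by
    rw [mul_sub, mul_one, mul_one_div_cancel hj0.ne', hj]
    push_cast
    ring
  have hx : 0 < 1 - 1 / j := by
    have h := hi0
    rw [hij] at h
    exact (mul_pos_iff_of_pos_left hj0).1 h
  have h1 : 1 + K * (1 / j) ≤ (1 - 1 / j) ^ (-K) := by
    have h2 : 1 - 1 / j ≤ Real.exp (-(1 / j)) := by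
      have := Real.add_one_le_exp (-(1 / j))
      linarith
    have h3 : Real.exp (-(1 / j)) ^ (-K) ≤ (1 - 1 / j) ^ (-K) :=
      Real.rpow_le_rpow_of_nonpos hx h2 (by linarith)
    rw [← Real.exp_mul] at h3
    have h4 := Real.add_one_le_exp (-(1 / j) * -K)
    have h5 : -(1 / j) * -K = K * (1 / j) := by ring
    rw [h5] at h3 h4
    linarith
  have h6 : (i : ℝ) ^ (-K) = j ^ (-K) * (1 - 1 / j) ^ (-K) := by
    rw [hij]
    exact Real.mul_rpow hj0.le hx.le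
  have h7 : j ^ (-(K + 1)) = j ^ (-K) * (1 / j) := by
    rw [neg_add, Real.rpow_add hj0, Real.rpow_neg_one, one_div]
  have h8 : 0 < j ^ (-K) := Real.rpow_pos_of_pos hj0 _
  rw [h6, h7]
  have h9 : j ^ (-K) * (1 + K * (1 / j)) ≤ j ^ (-K) * (1 - 1 / j) ^ (-K) :=
    mul_le_mul_of_nonneg_left h1 h8.le
  rw [one_div K, ← div_eq_inv_mul, le_div_iff₀ hK]
  nlinarith

private theorem sump_sum {K : ℝ} (hK : 0 < K) {i₀ : ℕ} (hi : 1 ≤ i₀) (N : ℕ) (hN : i₀ ≤ N) :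
    ∑ i ∈ Icc i₀ N, (i : ℝ) ^ (-(K + 1)) ≤
      (1 + 1 / K) * (i₀ : ℝ) ^ (-K) - 1 / K * (N : ℝ) ^ (-K) := by
  induction N, hN using Nat.le_induction with
  | base =>
    rw [Icc_self, sum_singleton]
    have h1 : (1 : ℝ) ≤ i₀ := by exact_mod_cast hi
    have h2 : (i₀ : ℝ) ^ (-(K + 1)) ≤ (i₀ : ℝ) ^ (-K) :=
      Real.rpow_le_rpow_of_exponent_le h1 (by linarith)
    refine h2.trans (le_of_eq ?_)
    ring
  | succ N hN ih =>
    rw [← Finset.insert_Icc_right_eq_Icc_add_one (by omega), Finset.sum_insert (by simp)]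
    have h := sump_step hK (hi.trans hN)
    have h2 : 1 / K * ((N : ℝ) ^ (-K) - ((N + 1 : ℕ) : ℝ) ^ (-K)) =
        1 / K * (N : ℝ) ^ (-K) - 1 / K * ((N + 1 : ℕ) : ℝ) ^ (-K) := by ring
    rw [h2] at h
    linarith

theorem sumP {K : ℝ} (hK : 0 < K) : ∃ C > (0 : ℝ), ∀ i₀ N : ℕ, 1 ≤ i₀ → ∀ L : ℝ, 0 < L →
    L ≤ 3 * ((i₀ : ℝ) + 1) * Real.log 2 →
      ∑ i ∈ Icc i₀ N, ((i : ℝ) * Real.log 2) ^ (-(K + 1)) ≤ C * L ^ (-K) := by
  have hc : 0 < Real.log 2 := Real.log_pos (by norm_num)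
  set c := Real.log 2 with hcdef
  refine ⟨c ^ (-(K + 1)) * ((1 + 1 / K) * (6 * c) ^ K), by positivity, ?_⟩
  intro i₀ N hi L hL hLi
  have hi0 : (1 : ℝ) ≤ i₀ := by exact_mod_cast hi
  have hterm : ∀ i ∈ Icc i₀ N, ((i : ℝ) * c) ^ (-(K + 1)) = c ^ (-(K + 1)) * (i : ℝ) ^ (-(K + 1)) := by
    intro i _
    rw [Real.mul_rpow (Nat.cast_nonneg i) hc.le, mul_comm]
  rw [Finset.sum_congr rfl hterm, ← Finset.mul_sum]
  have hsum : ∑ i ∈ Icc i₀ N, (i : ℝ) ^ (-(K + 1)) ≤ (1 + 1 / K) * (i₀ : ℝ) ^ (-K) := by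
    by_cases hN : i₀ ≤ N
    · refine (sump_sum hK hi N hN).trans ?_
      have : 0 ≤ 1 / K * (N : ℝ) ^ (-K) := by positivity
      linarith
    · rw [Icc_eq_empty hN, sum_empty]
      positivity
  have hpow : (i₀ : ℝ) ^ (-K) ≤ (6 * c) ^ K * L ^ (-K) := by
    have h1 : L / (6 * c) ≤ i₀ := by
      rw [div_le_iff₀ (by positivity)]
      nlinarith
    have h2 : (i₀ : ℝ) ^ (-K) ≤ (L / (6 * c)) ^ (-K) :=
      Real.rpow_le_rpow_of_nonpos (by positivity) h1 (by linarith)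
    refine h2.trans (le_of_eq ?_)
    rw [Real.div_rpow hL.le (by positivity), Real.rpow_neg (by positivity : (0 : ℝ) ≤ 6 * c), div_inv_eq_mul,
      mul_comm]
  calc c ^ (-(K + 1)) * ∑ i ∈ Icc i₀ N, (i : ℝ) ^ (-(K + 1))
      ≤ c ^ (-(K + 1)) * ((1 + 1 / K) * ((6 * c) ^ K * L ^ (-K))) := by
        refine mul_le_mul_of_nonneg_left (hsum.trans ?_) (by positivity)
        exact mul_le_mul_of_nonneg_left hpow (by positivity)
    _ = c ^ (-(K + 1)) * ((1 + 1 / K) * (6 * c) ^ K) * L ^ (-K) := by ring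

end Pool.Agent.R63
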