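import Pool.Agent.R63.Mas
import Pool.Agent.R63.Rem
import Pool.Agent.R63.SumP

/-!
# Powers of the logarithm

A bound `n ^ 2 / (log n) ^ (K + 1)` for the extremal function gives the removal lemma with
`(log (1 / δ)) ^ (-K)`, and conversely the removal lemma with `(log (1 / δ)) ^ (-K)` gives the bound
`n ^ 2 / (log n) ^ K` for the extremal function.
-/

namespace Pool.Agent.R63

open Finset

private theorem corP_tau_sq {n : ℕ} (G : SimpleGraph (Fin n)) : tau G ≤ n ^ 2 := by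
  classical
  have h1 : tau G ≤ (univ : Finset (Sym2 (Fin n))).card := by
    refine Nat.sInf_le ⟨univ, ?_, rfl⟩
    intro s hs
    have h2 : 1 < s.card := by
      rw [hs.card_eq]
      norm_num
    obtain ⟨a, ha, b, hb, hab⟩ := one_lt_card.1 h2
    have h3 := hs.isClique (mem_coe.2 ha) (mem_coe.2 hb) hab
    rw [SimpleGraph.deleteEdges_adj] at h3
    exact h3.2 (mem_coe.2 (mem_univ _))
  refine h1.trans ?_
  rw [card_univ, Sym2.card, Fintype.card_fin, Nat.choose_two_right, Nat.add_sub_cancel]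
  rcases Nat.eq_zero_or_pos n with h | h
  · subst h
    simp
  · apply Nat.div_le_of_le_mul
    nlinarith

private theorem corP_pow {i : ℕ} : Real.log ((2 ^ i : ℕ) : ℝ) = (i : ℝ) * Real.log 2 := by
  push_cast
  rw [Real.log_pow]

theorem corP1 {K : ℝ} (hK : 0 < K) (h : ∃ C : ℝ, ∀ n : ℕ, 2 ≤ n →
      (f n : ℝ) ≤ C * (n : ℝ) ^ 2 * Real.log n ^ (-(K + 1))) :
    ∃ C : ℝ, ∀ δ : ℝ, 0 < δ → δ < 1 / 2 → ∀ (n : ℕ) (G : SimpleGraph (Fin n)),
      (tr G : ℝ) ≤ δ * (n : ℝ) ^ 3 → (tau G : ℝ) ≤ C * (n : ℝ) ^ 2 * Real.log (1 / δ) ^ (-K) := by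
  obtain ⟨C, hC⟩ := h
  obtain ⟨B, hB, hsum⟩ := sumP hK
  have hl2 : 0 < Real.log 2 := Real.log_pos (by norm_num)
  have hΦ : ∀ i : ℕ, 3 ≤ i → (f (2 ^ i) : ℝ) / 4 ^ i ≤
      |C| * ((i : ℝ) * Real.log 2) ^ (-(K + 1)) := by
    intro i hi
    have h1 := hC (2 ^ i) (by
      calc 2 = 2 ^ 1 := by norm_num
        _ ≤ 2 ^ i := Nat.pow_le_pow_right (by norm_num) (by omega))
    rw [corP_pow] at h1
    have h4 : (((2 ^ i : ℕ) : ℝ)) ^ 2 = 4 ^ i := by
      push_cast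
      rw [← pow_mul, mul_comm, pow_mul]
      norm_num
    rw [h4] at h1
    have hp : 0 ≤ ((i : ℝ) * Real.log 2) ^ (-(K + 1)) :=
      Real.rpow_nonneg (mul_nonneg (Nat.cast_nonneg _) hl2.le) _
    rw [div_le_iff₀ (by positivity)]
    calc (f (2 ^ i) : ℝ) ≤ C * 4 ^ i * ((i : ℝ) * Real.log 2) ^ (-(K + 1)) := h1
      _ ≤ |C| * 4 ^ i * ((i : ℝ) * Real.log 2) ^ (-(K + 1)) := by
          apply mul_le_mul_of_nonneg_right _ hp
          apply mul_le_mul_of_nonneg_right (le_abs_self C)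
          positivity
      _ = |C| * ((i : ℝ) * Real.log 2) ^ (-(K + 1)) * 4 ^ i := by ring
  refine ⟨6000 * |C| * B + Real.log 512 ^ K, ?_⟩
  intro δ hδ hδ2 n G hG
  have hL : 0 < Real.log (1 / δ) := by
    apply Real.log_pos
    rw [lt_div_iff₀ hδ]
    linarith
  have hLK : 0 < Real.log (1 / δ) ^ (-K) := Real.rpow_pos_of_pos hL _
  have hl512 : 0 < Real.log 512 := Real.log_pos (by norm_num)
  have h512 : 0 < Real.log 512 ^ K := Real.rpow_pos_of_pos hl512 _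
  have hn2 : (0 : ℝ) ≤ (n : ℝ) ^ 2 := by positivity
  have hCB : 0 ≤ 6000 * |C| * B := by positivity
  by_cases hcase : δ * 512 ≤ 1
  · obtain ⟨i₀, hi3, hlog, hmain⟩ := mas hΦ hδ hcase
    obtain ⟨N, hN⟩ := hmain n G hG
    have hs := hsum i₀ N (by omega) (Real.log (1 / δ)) hL hlog
    have hs2 : ∑ i ∈ Icc i₀ N, |C| * ((i : ℝ) * Real.log 2) ^ (-(K + 1)) ≤
        |C| * (B * Real.log (1 / δ) ^ (-K)) := by
      rw [← mul_sum]
      exact mul_le_mul_of_nonneg_left hs (abs_nonneg C)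
    calc (tau G : ℝ) ≤ 6000 * (n : ℝ) ^ 2 *
          ∑ i ∈ Icc i₀ N, |C| * ((i : ℝ) * Real.log 2) ^ (-(K + 1)) := hN
      _ ≤ 6000 * (n : ℝ) ^ 2 * (|C| * (B * Real.log (1 / δ) ^ (-K))) := by
          apply mul_le_mul_of_nonneg_left hs2
          positivity
      _ = 6000 * |C| * B * (n : ℝ) ^ 2 * Real.log (1 / δ) ^ (-K) := by ring
      _ ≤ (6000 * |C| * B + Real.log 512 ^ K) * (n : ℝ) ^ 2 * Real.log (1 / δ) ^ (-K) := by
          apply mul_le_mul_of_nonneg_right _ hLK.le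
          apply mul_le_mul_of_nonneg_right _ hn2
          linarith
  · push Not at hcase
    have h1 : (tau G : ℝ) ≤ (n : ℝ) ^ 2 := by exact_mod_cast corP_tau_sq G
    have h2 : Real.log (1 / δ) ≤ Real.log 512 := by
      apply Real.log_le_log (by positivity)
      rw [div_le_iff₀ hδ]
      linarith
    have h3 : Real.log 512 ^ (-K) ≤ Real.log (1 / δ) ^ (-K) :=
      Real.rpow_le_rpow_of_nonpos hL h2 (by linarith)
    have h4 : Real.log 512 ^ K * Real.log 512 ^ (-K) = 1 := by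
      rw [← Real.rpow_add hl512]
      simp
    have h5 : 1 ≤ Real.log 512 ^ K * Real.log (1 / δ) ^ (-K) :=
      h4.symm.le.trans (mul_le_mul_of_nonneg_left h3 h512.le)
    calc (tau G : ℝ) ≤ (n : ℝ) ^ 2 * 1 := by linarith
      _ ≤ (n : ℝ) ^ 2 * (Real.log 512 ^ K * Real.log (1 / δ) ^ (-K)) :=
          mul_le_mul_of_nonneg_left h5 hn2
      _ = Real.log 512 ^ K * (n : ℝ) ^ 2 * Real.log (1 / δ) ^ (-K) := by ring
      _ ≤ (6000 * |C| * B + Real.log 512 ^ K) * (n : ℝ) ^ 2 * Real.log (1 / δ) ^ (-K) := by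
          apply mul_le_mul_of_nonneg_right _ hLK.le
          apply mul_le_mul_of_nonneg_right _ hn2
          linarith

theorem corP2 {K : ℝ} (hK : 0 < K) (h : ∃ C : ℝ, ∀ δ : ℝ, 0 < δ → δ < 1 / 2 →
      ∀ (n : ℕ) (G : SimpleGraph (Fin n)), (tr G : ℝ) ≤ δ * (n : ℝ) ^ 3 →
      (tau G : ℝ) ≤ C * (n : ℝ) ^ 2 * Real.log (1 / δ) ^ (-K)) :
    ∃ C : ℝ, ∀ n : ℕ, 2 ≤ n → (f n : ℝ) ≤ C * (n : ℝ) ^ 2 * Real.log n ^ (-K) := by
  obtain ⟨C, hC⟩ := h
  have hKK : 0 < K ^ K := Real.rpow_pos_of_pos hK _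
  have hl6 : 0 < Real.log 6 := Real.log_pos (by norm_num)
  have h6K : 0 < Real.log 6 ^ K := Real.rpow_pos_of_pos hl6 _
  refine ⟨|C| + K ^ K + Real.log 6 ^ K, ?_⟩
  intro n hn
  have hnR : (2 : ℝ) ≤ (n : ℝ) := by exact_mod_cast hn
  have hn0 : (0 : ℝ) < (n : ℝ) := by linarith
  have hL : 0 < Real.log n := Real.log_pos (by linarith)
  have hLK : 0 < Real.log n ^ (-K) := Real.rpow_pos_of_pos hL _
  have hn2 : (0 : ℝ) ≤ (n : ℝ) ^ 2 := by positivity
  have hA : 0 ≤ |C| := abs_nonneg C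
  by_cases h6 : 6 ≤ n
  · obtain ⟨G, hG1, hG2⟩ := rem h6
    have hG1' : 6 * (tr G : ℝ) ≤ (n : ℝ) ^ 2 := by exact_mod_cast hG1
    have hG2' : 3 * (f n : ℝ) ≤ 3 * (tau G : ℝ) + 2 * (n : ℝ) := by exact_mod_cast hG2
    have hn6 : (6 : ℝ) ≤ (n : ℝ) := by exact_mod_cast h6
    have hδ : (0 : ℝ) < 1 / (6 * (n : ℝ)) := by positivity
    have hδ2 : 1 / (6 * (n : ℝ)) < 1 / 2 := by
      apply one_div_lt_one_div_of_lt (by norm_num)
      linarith
    have htr : (tr G : ℝ) ≤ 1 / (6 * (n : ℝ)) * (n : ℝ) ^ 3 := by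
      have : 1 / (6 * (n : ℝ)) * (n : ℝ) ^ 3 = (n : ℝ) ^ 2 / 6 := by
        field_simp
      rw [this]
      linarith
    have h1 := hC (1 / (6 * (n : ℝ))) hδ hδ2 n G htr
    have h2 : (1 : ℝ) / (1 / (6 * (n : ℝ))) = 6 * (n : ℝ) := one_div_one_div _
    rw [h2] at h1
    have h3 : Real.log (6 * (n : ℝ)) ^ (-K) ≤ Real.log n ^ (-K) := by
      apply Real.rpow_le_rpow_of_nonpos hL _ (by linarith)
      apply Real.log_le_log hn0
      linarith
    have h3' : 0 ≤ Real.log (6 * (n : ℝ)) ^ (-K) :=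
      Real.rpow_nonneg (Real.log_nonneg (by linarith)) _
    have h4 : (tau G : ℝ) ≤ |C| * (n : ℝ) ^ 2 * Real.log n ^ (-K) := by
      calc (tau G : ℝ) ≤ C * (n : ℝ) ^ 2 * Real.log (6 * (n : ℝ)) ^ (-K) := h1
        _ ≤ |C| * (n : ℝ) ^ 2 * Real.log (6 * (n : ℝ)) ^ (-K) := by
            apply mul_le_mul_of_nonneg_right _ h3'
            exact mul_le_mul_of_nonneg_right (le_abs_self C) hn2
        _ ≤ |C| * (n : ℝ) ^ 2 * Real.log n ^ (-K) :=
            mul_le_mul_of_nonneg_left h3 (mul_nonneg hA hn2)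
    have h5 : Real.log n ^ K ≤ K ^ K * (n : ℝ) := by
      have e1 : Real.log n ≤ (n : ℝ) ^ (1 / K) / (1 / K) :=
        Real.log_le_rpow_div hn0.le (by positivity)
      have e2 : (n : ℝ) ^ (1 / K) / (1 / K) = K * (n : ℝ) ^ (1 / K) := by
        field_simp
      rw [e2] at e1
      calc Real.log n ^ K ≤ (K * (n : ℝ) ^ (1 / K)) ^ K :=
            Real.rpow_le_rpow hL.le e1 hK.le
        _ = K ^ K * (n : ℝ) := by
            rw [Real.mul_rpow hK.le (Real.rpow_nonneg hn0.le _), ← Real.rpow_mul hn0.le,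
              one_div_mul_cancel hK.ne', Real.rpow_one]
    have h6 : Real.log n ^ K * Real.log n ^ (-K) = 1 := by
      rw [← Real.rpow_add hL]
      simp
    have h7 : (n : ℝ) ≤ K ^ K * (n : ℝ) ^ 2 * Real.log n ^ (-K) := by
      calc (n : ℝ) = (n : ℝ) * (Real.log n ^ K * Real.log n ^ (-K)) := by rw [h6, mul_one]
        _ ≤ (n : ℝ) * (K ^ K * (n : ℝ) * Real.log n ^ (-K)) := by
            apply mul_le_mul_of_nonneg_left _ hn0.le
            exact mul_le_mul_of_nonneg_right h5 hLK.le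
        _ = K ^ K * (n : ℝ) ^ 2 * Real.log n ^ (-K) := by ring
    have h8 : 0 ≤ Real.log 6 ^ K * (n : ℝ) ^ 2 * Real.log n ^ (-K) := by positivity
    have h9 : (|C| + K ^ K + Real.log 6 ^ K) * (n : ℝ) ^ 2 * Real.log n ^ (-K) =
        |C| * (n : ℝ) ^ 2 * Real.log n ^ (-K) + K ^ K * (n : ℝ) ^ 2 * Real.log n ^ (-K) +
          Real.log 6 ^ K * (n : ℝ) ^ 2 * Real.log n ^ (-K) := by ring
    rw [h9]
    linarith
  · push Not at h6
    have h1 : f n ≤ n ^ 2 := by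
      refine (f_le n).trans ?_
      interval_cases n <;> simp [Nat.choose]
    have h1' : (f n : ℝ) ≤ (n : ℝ) ^ 2 := by exact_mod_cast h1
    have hn6 : (n : ℝ) ≤ 6 := by exact_mod_cast h6.le
    have h2 : Real.log 6 ^ (-K) ≤ Real.log n ^ (-K) := by
      apply Real.rpow_le_rpow_of_nonpos hL _ (by linarith)
      exact Real.log_le_log hn0 hn6
    have h4 : Real.log 6 ^ K * Real.log 6 ^ (-K) = 1 := by
      rw [← Real.rpow_add hl6]
      simp
    have h5 : 1 ≤ Real.log 6 ^ K * Real.log n ^ (-K) := by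
      rw [← h4]
      exact mul_le_mul_of_nonneg_left h2 h6K.le
    calc (f n : ℝ) ≤ (n : ℝ) ^ 2 * 1 := by linarith
      _ ≤ (n : ℝ) ^ 2 * (Real.log 6 ^ K * Real.log n ^ (-K)) :=
          mul_le_mul_of_nonneg_left h5 hn2
      _ = Real.log 6 ^ K * (n : ℝ) ^ 2 * Real.log n ^ (-K) := by ring
      _ ≤ (|C| + K ^ K + Real.log 6 ^ K) * (n : ℝ) ^ 2 * Real.log n ^ (-K) := by
          apply mul_le_mul_of_nonneg_right _ hLK.le
          apply mul_le_mul_of_nonneg_right _ hn2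
          linarith

end Pool.Agent.R63
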