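import Pool.Agent.Helper32.SixThree.Defs

/-!
# Project R63 (MP_3cac6c_co): the (6,3) problem and the triangle removal lemma. Definitions.

Paper proof: /team-store/r63.md. In the proofs a graph is represented by the family of its triangles, a family of 3-sets `T` with
`Cl T`.
-/

namespace Pool.Agent.R63

open Finset

/-- `ex^3(n, 6, 3)` -/
noncomputable def f (n : ℕ) : ℕ := Pool.Agent.Helper32.SixThree.ex 3 n 6 3

/-- the number of triangles of `G` -/
noncomputable def tr {V : Type*} (G : SimpleGraph V) : ℕ := {s : Finset V | G.IsNClique 3 s}.ncard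

/-- the least number of edges whose removal destroys all triangles of `G` -/
noncomputable def tau {V : Type*} (G : SimpleGraph V) : ℕ :=
  sInf {m | ∃ D : Finset (Sym2 V), (G.deleteEdges (D : Set (Sym2 V))).CliqueFree 3 ∧ D.card = m}

variable {V : Type*} [DecidableEq V]

/-- the number of members of `T` which contain `e` -/
def dg (T : Finset (Finset V)) (e : Finset V) : ℕ := (T.filter (fun t => e ⊆ t)).card

/-- `T` is a set of 3-sets, and it contains all 3-sets whose pairs are contained in members of `T`
(so `T` is the set of all triangles of a graph) -/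
def Cl (T : Finset (Finset V)) : Prop :=
  (∀ t ∈ T, t.card = 3) ∧ ∀ u : Finset V, u.card = 3 →
    (∀ e ⊆ u, e.card = 2 → ∃ t ∈ T, e ⊆ t) → u ∈ T

/-- two different members have at most one point in common -/
def Lin (T : Finset (Finset V)) : Prop := ∀ t ∈ T, ∀ u ∈ T, t ≠ u → (t ∩ u).card ≤ 1

/-- `D` is a set of pairs, every member of `T` contains a member of `D` -/
def Hit (D T : Finset (Finset V)) : Prop := (∀ e ∈ D, e.card = 2) ∧ ∀ t ∈ T, ∃ e ∈ D, e ⊆ t

/-- the 3-sets of indices which `φ` maps onto members of `F` -/
def Xf {q : ℕ} (φ : Fin q → V) (F : Finset (Finset V)) : Finset (Finset (Fin q)) :=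
  univ.filter (fun u => u.card = 3 ∧ u.image φ ∈ F)

end Pool.Agent.R63
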