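import Pool.Agent.R63.Defs

/-!
# Basic facts on the extremal function

`ex` is a supremum of a bounded set of natural numbers, so it is attained; an extremal family on `Fin n` is mapped to
`Fin m` by `Fin.castLE`, which gives the monotonicity from `6` on.
-/

namespace Pool.Agent.R63

open Finset

private theorem Ex_card {n : ℕ} {H : Finset (Finset (Fin n))} (h3 : ∀ t ∈ H, t.card = 3) :
    H.card ≤ n.choose 3 := by
  have h1 : H ⊆ powersetCard 3 (univ : Finset (Fin n)) := fun t ht =>
    mem_powersetCard.mpr ⟨subset_univ _, h3 t ht⟩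
  refine (card_le_card h1).trans (le_of_eq ?_)
  rw [card_powersetCard, card_univ, Fintype.card_fin]

private theorem Ex_bdd (n : ℕ) : BddAbove {m | ∃ E : Finset (Finset (Fin n)), (∀ s ∈ E, s.card = 3) ∧
    (∀ S : Finset (Fin n), S.card = 6 → (E.filter (· ⊆ S)).card < 3) ∧ E.card = m} := by
  refine ⟨n.choose 3, ?_⟩
  rintro m ⟨E, h3, -, rfl⟩
  exact Ex_card h3

theorem le_f {n : ℕ} {H : Finset (Finset (Fin n))} (h3 : ∀ t ∈ H, t.card = 3)
    (h6 : ∀ S : Finset (Fin n), S.card = 6 → (H.filter (· ⊆ S)).card < 3) : H.card ≤ f n :=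
  le_csSup (Ex_bdd n) ⟨H, h3, h6, rfl⟩

theorem exists_f (n : ℕ) : ∃ H : Finset (Finset (Fin n)), (∀ t ∈ H, t.card = 3) ∧
    (∀ S : Finset (Fin n), S.card = 6 → (H.filter (· ⊆ S)).card < 3) ∧ H.card = f n := by
  have hne : {m | ∃ E : Finset (Finset (Fin n)), (∀ s ∈ E, s.card = 3) ∧
      (∀ S : Finset (Fin n), S.card = 6 → (E.filter (· ⊆ S)).card < 3) ∧ E.card = m}.Nonempty :=
    ⟨0, ∅, fun t ht => absurd ht (notMem_empty t), fun S _ => by
      rw [filter_empty, card_empty]
      exact Nat.succ_pos 2, card_empty⟩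
  exact Nat.sSup_mem hne (Ex_bdd n)

theorem f_mono {n m : ℕ} (h6 : 6 ≤ n) (h : n ≤ m) : f n ≤ f m := by
  classical
  obtain ⟨H, h1, h2, h3⟩ := exists_f n
  rw [← h3]
  have hinj : Function.Injective fun t : Finset (Fin n) => t.map (Fin.castLEEmb h) :=
    map_injective _
  rw [← card_image_of_injective H hinj]
  refine le_f ?_ ?_
  · intro t ht
    obtain ⟨u, hu, rfl⟩ := mem_image.mp ht
    rw [card_map]
    exact h1 u hu
  · intro S hS
    have hP : (univ.filter fun i : Fin n => Fin.castLEEmb h i ∈ S).card ≤ 6 := by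
      rw [← hS]
      refine card_le_card_of_injOn (Fin.castLEEmb h) (fun i hi => ?_)
        ((Fin.castLEEmb h).injective.injOn)
      exact (mem_filter.mp hi).2
    obtain ⟨Q, hPQ, hQ⟩ := exists_superset_card_eq hP (by rw [Fintype.card_fin]; exact h6)
    refine lt_of_le_of_lt ?_ (h2 Q hQ)
    rw [filter_image, card_image_of_injective _ hinj]
    refine card_le_card fun t ht => ?_
    rw [mem_filter] at ht ⊢
    refine ⟨ht.1, fun i hi => hPQ ?_⟩
    rw [mem_filter]
    exact ⟨mem_univ i, ht.2 (mem_map_of_mem _ hi)⟩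

theorem one_le_f {n : ℕ} (hn : 3 ≤ n) : 1 ≤ f n := by
  classical
  obtain ⟨s, -, hs⟩ := exists_subset_card_eq (s := (univ : Finset (Fin n))) (n := 3)
    (by rw [card_univ, Fintype.card_fin]; exact hn)
  have h := le_f (n := n) (H := {s}) (fun t ht => by rw [mem_singleton.mp ht]; exact hs)
    (fun S _ => lt_of_le_of_lt (card_filter_le _ _) (by rw [card_singleton]; exact Nat.one_lt_succ_succ 1))
  rwa [card_singleton] at h

theorem f_le (n : ℕ) : f n ≤ n.choose 3 := by
  obtain ⟨H, h1, -, h3⟩ := exists_f n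
  rw [← h3]
  exact Ex_card h1

end Pool.Agent.R63
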