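import Pool.Agent.R63.Ex

/-!
# Closed linear families are (6,3)-free

If three different members of a closed linear family are contained in a 6-set, their pairwise
intersections are three different points; the 3-set of these points is in the family and has two
points in common with two of the members, contradiction. So the size of a closed linear family is at
most the (6,3) number.
-/

namespace Pool.Agent.R63

open Finset

private theorem fre_eq {V : Type*} [DecidableEq V] {I : Finset (Finset V)} (hl : Lin I)
    {U A : Finset V} (hU : U ∈ I) (hA : A ∈ I) {x y : V} (hxy : x ≠ y) (hxU : x ∈ U) (hyU : y ∈ U)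
    (hxA : x ∈ A) (hyA : y ∈ A) : U = A := by
  by_contra hne
  have h1 := hl U hU A hA hne
  have h2 : ({x, y} : Finset V) ⊆ U ∩ A := by
    intro z hz
    rw [mem_insert, mem_singleton] at hz
    rcases hz with rfl | rfl
    · exact mem_inter.2 ⟨hxU, hxA⟩
    · exact mem_inter.2 ⟨hyU, hyA⟩
  have h3 := card_le_card h2
  rw [card_pair hxy] at h3
  omega

theorem free_six {V : Type*} [DecidableEq V] {I : Finset (Finset V)} (hc : Cl I) (hl : Lin I)
    {S : Finset V} (hS : S.card = 6) : (I.filter (· ⊆ S)).card < 3 := by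
  by_contra hcon
  rw [not_lt] at hcon
  obtain ⟨A, hA, B, hB, C, hC, hAB, hAC, hBC⟩ := two_lt_card.1 hcon
  rw [mem_filter] at hA hB hC
  have cA := hc.1 A hA.1
  have cB := hc.1 B hB.1
  have cC := hc.1 C hC.1
  have iAB := hl A hA.1 B hB.1 hAB
  have iAC := hl A hA.1 C hC.1 hAC
  have iBC := hl B hB.1 C hC.1 hBC
  have u1 := card_union_add_card_inter A B
  have u2 := card_union_add_card_inter (A ∪ B) C
  have u3 : ((A ∪ B) ∪ C).card ≤ 6 := by
    rw [← hS]
    exact card_le_card (union_subset (union_subset hA.2 hB.2) hC.2)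
  rw [union_inter_distrib_right] at u2
  have u4 := card_union_add_card_inter (A ∩ C) (B ∩ C)
  obtain ⟨p, hp⟩ := card_pos.1 (show 0 < (A ∩ B).card by omega)
  obtain ⟨s, hs⟩ := card_pos.1 (show 0 < (A ∩ C).card by omega)
  obtain ⟨r, hr⟩ := card_pos.1 (show 0 < (B ∩ C).card by omega)
  have hrs : r ≠ s := by
    rintro rfl
    have h1 : r ∈ (A ∩ C) ∩ (B ∩ C) := mem_inter.2 ⟨hs, hr⟩
    have h2 := card_pos.2 ⟨r, h1⟩
    omega
  rw [mem_inter] at hp hs hr
  have hps : p ≠ s := by
    rintro rfl
    have h1 : p ∈ (A ∩ C) ∩ (B ∩ C) :=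
      mem_inter.2 ⟨mem_inter.2 hs, mem_inter.2 ⟨hp.2, hs.2⟩⟩
    have h2 := card_pos.2 ⟨p, h1⟩
    omega
  have hpr : p ≠ r := by
    rintro rfl
    have h1 : p ∈ (A ∩ C) ∩ (B ∩ C) :=
      mem_inter.2 ⟨mem_inter.2 ⟨hp.1, hr.2⟩, mem_inter.2 hr⟩
    have h2 := card_pos.2 ⟨p, h1⟩
    omega
  have hU : ({p, r, s} : Finset V) ∈ I := by
    refine hc.2 _ (card_eq_three.2 ⟨p, r, s, hpr, hps, hrs, rfl⟩) ?_
    intro e he hcard
    have hsub : ∀ z ∈ e, z = p ∨ z = r ∨ z = s := by
      intro z hz
      have h1 := he hz
      rw [mem_insert, mem_insert, mem_singleton] at h1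
      exact h1
    by_cases h1 : p ∈ e
    · by_cases h2 : r ∈ e
      · by_cases h3 : s ∈ e
        · exfalso
          have h4 : ({p, r, s} : Finset V) ⊆ e := by
            intro z hz
            rw [mem_insert, mem_insert, mem_singleton] at hz
            rcases hz with rfl | rfl | rfl
            · exact h1
            · exact h2
            · exact h3
          have h5 := card_le_card h4
          rw [card_eq_three.2 ⟨p, r, s, hpr, hps, hrs, rfl⟩] at h5
          omega
        · refine ⟨B, hB.1, fun z hz => ?_⟩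
          rcases hsub z hz with rfl | rfl | rfl
          · exact hp.2
          · exact hr.1
          · exact absurd hz h3
      · refine ⟨A, hA.1, fun z hz => ?_⟩
        rcases hsub z hz with rfl | rfl | rfl
        · exact hp.1
        · exact absurd hz h2
        · exact hs.1
    · refine ⟨C, hC.1, fun z hz => ?_⟩
      rcases hsub z hz with rfl | rfl | rfl
      · exact absurd hz h1
      · exact hr.2
      · exact hs.2
  have e1 : ({p, r, s} : Finset V) = A :=
    fre_eq hl hU hA.1 hps (by simp) (by simp) hp.1 hs.1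
  have e2 : ({p, r, s} : Finset V) = B :=
    fre_eq hl hU hB.1 hpr (by simp) (by simp) hp.2 hr.1
  exact hAB (e1.symm.trans e2)

theorem free_le {q : ℕ} {I : Finset (Finset (Fin q))} (hc : Cl I) (hl : Lin I) :
    I.card ≤ f q :=
  le_f hc.1 fun _ hS => free_six hc hl hS

end Pool.Agent.R63
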