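import Mathlib

/-!
# Independent sets in 3-uniform hypergraphs

Average over all functions `g` from the subtype of `X` to `Fin s`: the elements of colour `0`, minus one element of every triple
whose three elements have colour `0`, form the independent set.
-/

namespace Pool.Agent.R63

open Finset

private theorem r63ind_count {ι : Type*} [Fintype ι] [DecidableEq ι] {s : ℕ} (z0 : Fin s)
    (P : Finset ι) :
    ((univ : Finset (ι → Fin s)).filter (fun g => ∀ p ∈ P, g p = z0)).card * s ^ P.card =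
      s ^ Fintype.card ι := by
  have h1 : (univ : Finset (ι → Fin s)).filter (fun g => ∀ p ∈ P, g p = z0) =
      Fintype.piFinset (fun i => if i ∈ P then ({z0} : Finset (Fin s)) else univ) := by
    ext g
    simp only [mem_filter, mem_univ, true_and, Fintype.mem_piFinset]
    constructor
    · intro h i
      by_cases hi : i ∈ P
      · simp [hi, h i hi]
      · simp [hi]
    · intro h i hi
      have := h i
      simpa [hi] using this
  have h2 : ∀ i : ι, (if i ∈ P then ({z0} : Finset (Fin s)) else univ).card =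
      if i ∈ P then 1 else s := by
    intro i
    by_cases hi : i ∈ P
    · simp [hi]
    · simp [hi]
  rw [h1, Fintype.card_piFinset]
  simp only [h2]
  rw [Finset.prod_ite, Finset.prod_const_one, one_mul, Finset.prod_const, ← pow_add]
  congr 1
  have h3 := Finset.card_filter_add_card_filter_not (s := (univ : Finset ι)) (fun i => i ∈ P)
  have h4 : (univ.filter (fun i => i ∈ P)) = P := by
    ext i; simp
  rw [h4] at h3
  rw [Finset.card_univ] at h3
  omega

theorem exists_indep {α β : Type*} [DecidableEq α] (X : Finset α) (Z : Finset β) (a b c : β → α)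
    (hz : ∀ z ∈ Z, a z ∈ X ∧ b z ∈ X ∧ c z ∈ X ∧ a z ≠ b z ∧ b z ≠ c z ∧ a z ≠ c z) {s : ℕ}
    (hs : 0 < s) : ∃ I ⊆ X, (∀ z ∈ Z, ¬ (a z ∈ I ∧ b z ∈ I ∧ c z ∈ I)) ∧
      X.card * s ^ 2 ≤ I.card * s ^ 3 + Z.card := by
  classical
  set z0 : Fin s := ⟨0, hs⟩ with hz0
  let Q : ({x // x ∈ X} → Fin s) → α → Prop := fun g x => ∃ h : x ∈ X, g ⟨x, h⟩ = z0
  let N : ℕ := s ^ X.card
  have hcard : Fintype.card {x // x ∈ X} = X.card := Fintype.card_coe X
  -- counting for one element
  have hx1 : ∀ x ∈ X, ((univ : Finset ({x // x ∈ X} → Fin s)).filter (fun g => Q g x)).card * s = N := by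
    intro x hx
    have h := r63ind_count z0 ({⟨x, hx⟩} : Finset {x // x ∈ X})
    rw [hcard, card_singleton, pow_one] at h
    refine Eq.trans ?_ h
    congr 2
    ext g
    simp only [mem_filter, mem_univ, true_and, mem_singleton, forall_eq, Q]
    exact ⟨fun ⟨_, h⟩ => h, fun h => ⟨hx, h⟩⟩
  have hz3 : ∀ z ∈ Z, ((univ : Finset ({x // x ∈ X} → Fin s)).filter
      (fun g => Q g (a z) ∧ Q g (b z) ∧ Q g (c z))).card * s ^ 3 = N := by
    intro z hzZ
    obtain ⟨ha, hb, hc, hab, hbc, hac⟩ := hz z hzZ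
    have h := r63ind_count z0 ({⟨a z, ha⟩, ⟨b z, hb⟩, ⟨c z, hc⟩} : Finset {x // x ∈ X})
    have h3 : ({⟨a z, ha⟩, ⟨b z, hb⟩, ⟨c z, hc⟩} : Finset {x // x ∈ X}).card = 3 := by
      rw [Finset.card_eq_three]
      refine ⟨_, _, _, ?_, ?_, ?_, rfl⟩
      · intro h; exact hab (congrArg Subtype.val h)
      · intro h; exact hac (congrArg Subtype.val h)
      · intro h; exact hbc (congrArg Subtype.val h)
    rw [hcard, h3] at h
    refine Eq.trans ?_ h
    congr 2
    ext g
    simp only [mem_filter, mem_univ, true_and, mem_insert, mem_singleton, forall_eq_or_imp,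
      forall_eq, Q]
    exact ⟨fun ⟨⟨_, h1⟩, ⟨_, h2⟩, ⟨_, h3⟩⟩ => ⟨h1, h2, h3⟩,
      fun ⟨h1, h2, h3⟩ => ⟨⟨ha, h1⟩, ⟨hb, h2⟩, ⟨hc, h3⟩⟩⟩
  let X0 : ({x // x ∈ X} → Fin s) → Finset α := fun g => X.filter (fun x => Q g x)
  let Z0 : ({x // x ∈ X} → Fin s) → Finset β := fun g =>
    Z.filter (fun z => Q g (a z) ∧ Q g (b z) ∧ Q g (c z))
  have hsX : (∑ g : {x // x ∈ X} → Fin s, (X0 g).card) * s = X.card * N := by
    have : ∑ g : {x // x ∈ X} → Fin s, (X0 g).card =
        ∑ x ∈ X, ((univ : Finset ({x // x ∈ X} → Fin s)).filter (fun g => Q g x)).card := by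
      simp only [X0, Finset.card_filter]
      rw [Finset.sum_comm]
    rw [this, Finset.sum_mul, Finset.sum_congr rfl hx1, Finset.sum_const, smul_eq_mul]
  have hsZ : (∑ g : {x // x ∈ X} → Fin s, (Z0 g).card) * s ^ 3 = Z.card * N := by
    have : ∑ g : {x // x ∈ X} → Fin s, (Z0 g).card =
        ∑ z ∈ Z, ((univ : Finset ({x // x ∈ X} → Fin s)).filter
          (fun g => Q g (a z) ∧ Q g (b z) ∧ Q g (c z))).card := by
      simp only [Z0, Finset.card_filter]
      rw [Finset.sum_comm]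
    rw [this, Finset.sum_mul, Finset.sum_congr rfl hz3, Finset.sum_const, smul_eq_mul]
  have hN : Fintype.card ({x // x ∈ X} → Fin s) = N := by
    rw [Fintype.card_fun, Fintype.card_fin, hcard]
  have hne : (univ : Finset ({x // x ∈ X} → Fin s)).Nonempty := ⟨fun _ => z0, mem_univ _⟩
  have hle : ∑ g : {x // x ∈ X} → Fin s, (X.card * s ^ 2 + (Z0 g).card * s ^ 3) ≤
      ∑ g : {x // x ∈ X} → Fin s, ((X0 g).card * s ^ 3 + Z.card) := by
    rw [Finset.sum_add_distrib, Finset.sum_add_distrib, Finset.sum_const, Finset.sum_const,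
      Finset.card_univ, hN, ← Finset.sum_mul, ← Finset.sum_mul, hsZ, smul_eq_mul, smul_eq_mul]
    have h1 : (∑ g : {x // x ∈ X} → Fin s, (X0 g).card) * s ^ 3 = X.card * N * s ^ 2 := by
      rw [← hsX]; ring
    rw [h1]
    apply le_of_eq
    ring
  obtain ⟨g, -, hg⟩ := Finset.exists_le_of_sum_le hne hle
  refine ⟨X0 g \ (Z0 g).image a, ?_, ?_, ?_⟩
  · exact (Finset.sdiff_subset).trans (Finset.filter_subset _ _)
  · rintro z hzZ ⟨h1, h2, h3⟩
    rw [Finset.mem_sdiff] at h1 h2 h3
    apply h1.2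
    refine Finset.mem_image.2 ⟨z, ?_, rfl⟩
    refine Finset.mem_filter.2 ⟨hzZ, ?_, ?_, ?_⟩
    · exact (Finset.mem_filter.1 h1.1).2
    · exact (Finset.mem_filter.1 h2.1).2
    · exact (Finset.mem_filter.1 h3.1).2
  · have h1 : (X0 g).card ≤ (X0 g \ (Z0 g).image a).card + (Z0 g).card := by
      have := Finset.card_le_card_sdiff_add_card (s := X0 g) (t := (Z0 g).image a)
      have h2 : ((Z0 g).image a).card ≤ (Z0 g).card := Finset.card_image_le
      omega
    have h2 : (X0 g).card * s ^ 3 ≤ (X0 g \ (Z0 g).image a).card * s ^ 3 + (Z0 g).card * s ^ 3 := by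
      calc (X0 g).card * s ^ 3 ≤ ((X0 g \ (Z0 g).image a).card + (Z0 g).card) * s ^ 3 :=
            Nat.mul_le_mul_right _ h1
        _ = _ := by ring
    omega

end Pool.Agent.R63
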