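import Pool.Agent.R63.Step

/-!
# Iteration over the scales

Induction on the number of scales which are left: `step` at the scale `2 ^ i₀`, then the next scale; when
`6 * 2 ^ i₀` exceeds `n`, one pair of each member is taken.
-/

namespace Pool.Agent.R63

open Finset

private theorem iter_pick {V : Type*} [DecidableEq V] {T : Finset (Finset V)}
    (h3 : ∀ t ∈ T, t.card = 3) :
    ∃ D : Finset (Finset V), Hit D T ∧ D.card ≤ T.card := by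
  classical
  have h : ∀ t ∈ T, ∃ e ⊆ t, e.card = 2 := fun t ht =>
    Finset.exists_subset_card_eq (by rw [h3 t ht]; norm_num)
  choose! g hg using h
  refine ⟨T.image g, ⟨?_, fun t ht => ⟨g t, mem_image_of_mem g ht, (hg t ht).1⟩⟩,
    Finset.card_image_le⟩
  intro e he
  obtain ⟨t, ht, rfl⟩ := mem_image.1 he
  exact (hg t ht).2

private theorem iter_last {n c i₀ F : ℕ} (h6 : n < 6 * 2 ^ i₀)
    (ht : c * 8 ^ i₀ ≤ 1000 * F * n ^ 3) :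
    (c : ℝ) ≤ 6000 * (n : ℝ) ^ 2 * ((F : ℝ) / 4 ^ i₀) := by
  have h1 : (c : ℝ) * 8 ^ i₀ ≤ 1000 * F * (n : ℝ) ^ 3 := by exact_mod_cast ht
  have h2 : (n : ℝ) ≤ 6 * 2 ^ i₀ := by exact_mod_cast h6.le
  have h3 : (8 : ℝ) ^ i₀ = 2 ^ i₀ * 4 ^ i₀ := by
    rw [← mul_pow]
    norm_num
  have h4 : (0 : ℝ) < 2 ^ i₀ := by positivity
  have h5 : (0 : ℝ) < 4 ^ i₀ := by positivity
  have h7 : (0 : ℝ) ≤ F := Nat.cast_nonneg F
  have h8 : (n : ℝ) ^ 3 ≤ (n : ℝ) ^ 2 * (6 * 2 ^ i₀) := by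
    rw [pow_succ]
    exact mul_le_mul_of_nonneg_left h2 (by positivity)
  have h9 : (c : ℝ) * 4 ^ i₀ * 2 ^ i₀ ≤ (6000 * (n : ℝ) ^ 2 * F) * 2 ^ i₀ := by
    calc (c : ℝ) * 4 ^ i₀ * 2 ^ i₀ = (c : ℝ) * 8 ^ i₀ := by rw [h3]; ring
      _ ≤ 1000 * F * (n : ℝ) ^ 3 := h1
      _ ≤ 1000 * F * ((n : ℝ) ^ 2 * (6 * 2 ^ i₀)) :=
        mul_le_mul_of_nonneg_left h8 (by positivity)
      _ = (6000 * (n : ℝ) ^ 2 * F) * 2 ^ i₀ := by ring
  have h10 := le_of_mul_le_mul_right h9 h4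
  calc (c : ℝ) = (c : ℝ) * 4 ^ i₀ / 4 ^ i₀ := by field_simp
    _ ≤ (6000 * (n : ℝ) ^ 2 * F) / 4 ^ i₀ := div_le_div_of_nonneg_right h10 h5.le
    _ = 6000 * (n : ℝ) ^ 2 * ((F : ℝ) / 4 ^ i₀) := by ring

private theorem iter_cost {n c i₀ F : ℕ} (ht : c * (2 ^ i₀) ^ 2 ≤ 3840 * F * n ^ 2) :
    (c : ℝ) ≤ 6000 * (n : ℝ) ^ 2 * ((F : ℝ) / 4 ^ i₀) := by
  have h1 : (c : ℝ) * (2 ^ i₀) ^ 2 ≤ 3840 * F * (n : ℝ) ^ 2 := by exact_mod_cast ht
  have h3 : ((2 : ℝ) ^ i₀) ^ 2 = 4 ^ i₀ := by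
    rw [← pow_mul, mul_comm, pow_mul]
    norm_num
  have h5 : (0 : ℝ) < 4 ^ i₀ := by positivity
  have h7 : (0 : ℝ) ≤ F * (n : ℝ) ^ 2 := by positivity
  rw [h3] at h1
  calc (c : ℝ) = (c : ℝ) * 4 ^ i₀ / 4 ^ i₀ := by field_simp
    _ ≤ (6000 * (n : ℝ) ^ 2 * F) / 4 ^ i₀ := by
      refine div_le_div_of_nonneg_right ?_ h5.le
      nlinarith
    _ = 6000 * (n : ℝ) ^ 2 * ((F : ℝ) / 4 ^ i₀) := by ring

private theorem iter_sum {i₀ L : ℕ} (h : i₀ ≤ L) (a : ℕ → ℝ) :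
    ∑ i ∈ Icc i₀ L, a i = a i₀ + ∑ i ∈ Icc (i₀ + 1) L, a i := by
  have h1 : Icc i₀ L = insert i₀ (Icc (i₀ + 1) L) := by
    ext i
    simp only [mem_insert, mem_Icc]
    omega
  rw [h1, sum_insert]
  simp

private theorem iter_aux {n : ℕ} (m : ℕ) : ∀ {T : Finset (Finset (Fin n))}, Cl T → ∀ {i₀ : ℕ},
    3 ≤ i₀ → 2 ^ i₀ ≤ n → Nat.log 2 n - i₀ = m → T.card * 8 ^ i₀ ≤ 1000 * f (2 ^ i₀) * n ^ 3 →
    ∃ D : Finset (Finset (Fin n)), Hit D T ∧ (D.card : ℝ) ≤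
      6000 * (n : ℝ) ^ 2 * ∑ i ∈ Icc i₀ (Nat.log 2 n), (f (2 ^ i) : ℝ) / 4 ^ i := by
  classical
  induction m with
  | zero =>
    intro T hT i₀ h3 hn hm ht
    have h6 : n < 6 * 2 ^ i₀ := by
      by_contra hcon
      have h1 : i₀ + 1 ≤ Nat.log 2 n := by
        apply Nat.le_log_of_pow_le (by norm_num)
        rw [pow_succ]
        omega
      omega
    have hL : i₀ ≤ Nat.log 2 n := Nat.le_log_of_pow_le (by norm_num) hn
    obtain ⟨D, hD, hc⟩ := iter_pick hT.1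
    refine ⟨D, hD, ?_⟩
    have h1 : (D.card : ℝ) ≤ (T.card : ℝ) := by exact_mod_cast hc
    refine h1.trans ((iter_last h6 ht).trans (mul_le_mul_of_nonneg_left ?_ (by positivity)))
    rw [iter_sum hL]
    have h2 : (0 : ℝ) ≤ ∑ i ∈ Icc (i₀ + 1) (Nat.log 2 n), (f (2 ^ i) : ℝ) / 4 ^ i :=
      sum_nonneg fun i _ => by positivity
    linarith
  | succ m ih =>
    intro T hT i₀ h3 hn hm ht
    have hL : i₀ ≤ Nat.log 2 n := Nat.le_log_of_pow_le (by norm_num) hn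
    by_cases h6 : n < 6 * 2 ^ i₀
    · obtain ⟨D, hD, hc⟩ := iter_pick hT.1
      refine ⟨D, hD, ?_⟩
      have h1 : (D.card : ℝ) ≤ (T.card : ℝ) := by exact_mod_cast hc
      refine h1.trans ((iter_last h6 ht).trans (mul_le_mul_of_nonneg_left ?_ (by positivity)))
      rw [iter_sum hL]
      have h2 : (0 : ℝ) ≤ ∑ i ∈ Icc (i₀ + 1) (Nat.log 2 n), (f (2 ^ i) : ℝ) / 4 ^ i :=
        sum_nonneg fun i _ => by positivity
      linarith
    · have h8 : 8 ≤ 2 ^ i₀ := by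
        calc 8 = 2 ^ 3 := by norm_num
          _ ≤ 2 ^ i₀ := Nat.pow_le_pow_right (by norm_num) h3
      have h6' : 6 * 2 ^ i₀ ≤ Fintype.card (Fin n) := by
        rw [Fintype.card_fin]
        exact not_lt.1 h6
      have hpow : ∀ i : ℕ, ((2 : ℕ) ^ i) ^ 3 = 8 ^ i := by
        intro i
        rw [← pow_mul, mul_comm, pow_mul]
        norm_num
      have ht' : T.card * (2 ^ i₀) ^ 3 ≤ 1000 * f (2 ^ i₀) * Fintype.card (Fin n) ^ 3 := by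
        rw [hpow, Fintype.card_fin]
        exact ht
      obtain ⟨D₁, T', hD₁, -, hT', hcov, hc₁, hc'⟩ := step hT h8 h6' ht'
      rw [Fintype.card_fin] at hc₁ hc' h6'
      have hmono : f (2 ^ i₀) ≤ f (2 ^ (i₀ + 1)) :=
        f_mono (by omega) (Nat.pow_le_pow_right (by norm_num) (Nat.le_succ i₀))
      have hn' : 2 ^ (i₀ + 1) ≤ n := by
        rw [pow_succ]
        omega
      have hc'' : T'.card * 8 ^ (i₀ + 1) ≤ 1000 * f (2 ^ (i₀ + 1)) * n ^ 3 := by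
        rw [← hpow (i₀ + 1), pow_succ 2 i₀, mul_comm (2 ^ i₀) 2]
        refine hc'.trans ?_
        rw [mul_comm 2 (2 ^ i₀), ← pow_succ 2 i₀]
        exact Nat.mul_le_mul_right _ (Nat.mul_le_mul_left _ hmono)
      obtain ⟨D₂, hD₂, hc₂⟩ := ih hT' (i₀ := i₀ + 1) (by omega) hn' (by omega) hc''
      refine ⟨D₁ ∪ D₂, ⟨?_, ?_⟩, ?_⟩
      · intro e he
        rcases mem_union.1 he with h | h
        · exact hD₁ e h
        · exact hD₂.1 e h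
      · intro t ht
        by_cases htT : t ∈ T'
        · obtain ⟨e, he, het⟩ := hD₂.2 t htT
          exact ⟨e, mem_union_right _ he, het⟩
        · obtain ⟨e, he, het⟩ := hcov t ht htT
          exact ⟨e, mem_union_left _ he, het⟩
      · have h1 : ((D₁ ∪ D₂).card : ℝ) ≤ (D₁.card : ℝ) + (D₂.card : ℝ) := by
          exact_mod_cast card_union_le D₁ D₂
        rw [iter_sum hL, mul_add]
        exact h1.trans (add_le_add (iter_cost hc₁) hc₂)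

theorem iter {n : ℕ} {T : Finset (Finset (Fin n))} (hT : Cl T) {i₀ : ℕ} (h3 : 3 ≤ i₀)
    (hn : 2 ^ i₀ ≤ n) (ht : T.card * 8 ^ i₀ ≤ 1000 * f (2 ^ i₀) * n ^ 3) :
    ∃ D : Finset (Finset (Fin n)), Hit D T ∧ (D.card : ℝ) ≤
      6000 * (n : ℝ) ^ 2 * ∑ i ∈ Icc i₀ (Nat.log 2 n), (f (2 ^ i) : ℝ) / 4 ^ i :=
  iter_aux _ hT h3 hn rfl ht

end Pool.Agent.R63
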