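import Pool.Agent.R63.CorE
import Pool.Agent.R63.CorP

/-!
# The main inequality for graphs

A graph with few triangles is made free of triangles by removing few edges: the number of edges is
at most a sum over the scales `2 ^ i` of the extremal function for the (6,3) problem, divided by
the square of the scale. Proof: `gr1` and `iter`.
-/

namespace Pool.Agent.R63

open Finset

theorem mainA {n i₀ : ℕ} (h3 : 3 ≤ i₀) (hn : 2 ^ i₀ ≤ n) (G : SimpleGraph (Fin n))
    (ht : tr G * 8 ^ i₀ ≤ 1000 * f (2 ^ i₀) * n ^ 3) :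
    (tau G : ℝ) ≤ 6000 * (n : ℝ) ^ 2 * ∑ i ∈ Icc i₀ (Nat.log 2 n), (f (2 ^ i) : ℝ) / 4 ^ i := by
  obtain ⟨T, hC, hc, hD⟩ := gr1 G
  rw [← hc] at ht
  obtain ⟨D, hH, hle⟩ := iter hC h3 hn ht
  exact le_trans (by exact_mod_cast hD D hH) hle

end Pool.Agent.R63
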