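import Pool.Agent.R63.Iter
import Pool.Agent.R63.Gr

/-!
# From a bound for the extremal function to a removal lemma

`mas`: `i₀` is the largest `i` with `δ * 8 ^ i ≤ 1`. If `n < 2 ^ i₀`, a graph with at most `δ * n ^ 3` triangles has no triangle
(`tau_le_tr`). Otherwise `gr1` and `iter` apply, since `1 ≤ f (2 ^ i₀)`.
-/

namespace Pool.Agent.R63

open Finset

private theorem mas_scale {δ : ℝ} (hδ : 0 < δ) (hδ' : δ * 512 ≤ 1) :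
    ∃ i₀ : ℕ, 3 ≤ i₀ ∧ δ * 8 ^ i₀ ≤ 1 ∧ 1 < δ * 8 ^ (i₀ + 1) := by
  classical
  have hex : ∃ k : ℕ, 1 < δ * 8 ^ (k + 1) := by
    obtain ⟨m, hm⟩ := pow_unbounded_of_one_lt (1 / δ) (by norm_num : (1 : ℝ) < 8)
    refine ⟨m, ?_⟩
    rw [div_lt_iff₀ hδ] at hm
    have h1 : (8 : ℝ) ^ m ≤ 8 ^ (m + 1) := pow_le_pow_right₀ (by norm_num) (Nat.le_succ m)
    have h2 : (8 : ℝ) ^ m * δ ≤ 8 ^ (m + 1) * δ := mul_le_mul_of_nonneg_right h1 hδ.le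
    linarith
  have h3 : 3 ≤ Nat.find hex := by
    by_contra hcon
    have hle : Nat.find hex + 1 ≤ 3 := by omega
    have h1 : (8 : ℝ) ^ (Nat.find hex + 1) ≤ 8 ^ 3 := pow_le_pow_right₀ (by norm_num) hle
    have h2 := Nat.find_spec hex
    have h3 := mul_le_mul_of_nonneg_left h1 hδ.le
    have h4 : (8 : ℝ) ^ 3 = 512 := by norm_num
    rw [h4] at h3
    linarith
  refine ⟨Nat.find hex, h3, ?_, Nat.find_spec hex⟩
  have h1 := Nat.find_min hex (m := Nat.find hex - 1) (by omega)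
  have h2 : Nat.find hex - 1 + 1 = Nat.find hex := by omega
  rw [h2] at h1
  exact not_lt.1 h1

private theorem mas_log {δ : ℝ} (hδ : 0 < δ) {i₀ : ℕ} (h : 1 < δ * 8 ^ (i₀ + 1)) :
    Real.log (1 / δ) ≤ 3 * ((i₀ : ℝ) + 1) * Real.log 2 := by
  have h1 : 1 / δ ≤ 8 ^ (i₀ + 1) := by
    rw [div_le_iff₀ hδ, mul_comm]
    exact h.le
  have h2 : Real.log (1 / δ) ≤ Real.log ((8 : ℝ) ^ (i₀ + 1)) :=
    Real.log_le_log (by positivity) h1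
  have h3 : (8 : ℝ) = 2 ^ 3 := by norm_num
  rw [Real.log_pow, h3, Real.log_pow] at h2
  push_cast at h2
  linarith

theorem mas {Φ : ℕ → ℝ} (hΦ : ∀ i, 3 ≤ i → (f (2 ^ i) : ℝ) / 4 ^ i ≤ Φ i) {δ : ℝ} (hδ : 0 < δ)
    (hδ' : δ * 512 ≤ 1) : ∃ i₀ : ℕ, 3 ≤ i₀ ∧ Real.log (1 / δ) ≤ 3 * ((i₀ : ℝ) + 1) * Real.log 2 ∧
      ∀ (n : ℕ) (G : SimpleGraph (Fin n)), (tr G : ℝ) ≤ δ * (n : ℝ) ^ 3 → ∃ N : ℕ,
        (tau G : ℝ) ≤ 6000 * (n : ℝ) ^ 2 * ∑ i ∈ Icc i₀ N, Φ i := by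
  obtain ⟨i₀, h3, hle, hlt⟩ := mas_scale hδ hδ'
  refine ⟨i₀, h3, mas_log hδ hlt, fun n G hG => ?_⟩
  have h8 : (0 : ℝ) < 8 ^ i₀ := by positivity
  rcases lt_or_ge n (2 ^ i₀) with hn | hn
  · refine ⟨0, ?_⟩
    have h1 : (n : ℝ) < 2 ^ i₀ := by exact_mod_cast hn
    have h2 : (n : ℝ) ^ 3 < (2 ^ i₀) ^ 3 := pow_lt_pow_left₀ h1 (Nat.cast_nonneg n) (by norm_num)
    have h4 : ((2 : ℝ) ^ i₀) ^ 3 = 8 ^ i₀ := by
      rw [← pow_mul, mul_comm, pow_mul]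
      norm_num
    rw [h4] at h2
    have h5 : (tr G : ℝ) < 1 := by
      calc (tr G : ℝ) ≤ δ * (n : ℝ) ^ 3 := hG
        _ < δ * 8 ^ i₀ := mul_lt_mul_of_pos_left h2 hδ
        _ ≤ 1 := hle
    have h6 : tr G < 1 := by exact_mod_cast h5
    have h7 : tau G = 0 := by
      have := tau_le_tr G
      omega
    have h9 : Icc i₀ 0 = ∅ := Icc_eq_empty (by omega)
    rw [h7, h9, sum_empty, mul_zero, Nat.cast_zero]
  · refine ⟨Nat.log 2 n, ?_⟩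
    have hf : 1 ≤ f (2 ^ i₀) := by
      refine one_le_f ?_
      calc 3 ≤ 2 ^ 3 := by norm_num
        _ ≤ 2 ^ i₀ := Nat.pow_le_pow_right (by norm_num) h3
    have ht : tr G * 8 ^ i₀ ≤ 1000 * f (2 ^ i₀) * n ^ 3 := by
      have h1 : (tr G : ℝ) * 8 ^ i₀ ≤ (n : ℝ) ^ 3 := by
        calc (tr G : ℝ) * 8 ^ i₀ ≤ (δ * (n : ℝ) ^ 3) * 8 ^ i₀ :=
              mul_le_mul_of_nonneg_right hG h8.le
          _ = (δ * 8 ^ i₀) * (n : ℝ) ^ 3 := by ring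
          _ ≤ 1 * (n : ℝ) ^ 3 := mul_le_mul_of_nonneg_right hle (by positivity)
          _ = (n : ℝ) ^ 3 := one_mul _
      have h2 : tr G * 8 ^ i₀ ≤ n ^ 3 := by exact_mod_cast h1
      refine h2.trans ?_
      have h4 : 1 * n ^ 3 ≤ 1000 * f (2 ^ i₀) * n ^ 3 := Nat.mul_le_mul_right _ (by omega)
      rwa [one_mul] at h4
    obtain ⟨T, hC, hc, hD⟩ := gr1 G
    rw [← hc] at ht
    obtain ⟨D, hH, hcard⟩ := iter hC h3 hn ht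
    have h1 : (tau G : ℝ) ≤ (D.card : ℝ) := by exact_mod_cast hD D hH
    refine h1.trans (hcard.trans (mul_le_mul_of_nonneg_left ?_ (by positivity)))
    exact sum_le_sum fun i hi => hΦ i (h3.trans (mem_Icc.1 hi).1)

end Pool.Agent.R63
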