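import Pool.Agent.R63.Ind
import Pool.Agent.R63.Free

/-!
# One map

For a map `φ` the index triples which `φ` sends onto members of `M`, and which have at most one point in common with all
the others, contain many triples without a conflict; these form a closed linear family.
-/

namespace Pool.Agent.R63

open Finset

/-- the members of `X` with at most one point in common with every other member -/
private def One_iso {q : ℕ} (X : Finset (Finset (Fin q))) : Finset (Finset (Fin q)) :=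
  X.filter (fun u => ∀ u' ∈ X, u' ≠ u → (u ∩ u').card ≤ 1)

private theorem One_lin {q : ℕ} {X : Finset (Finset (Fin q))} {u u' e : Finset (Fin q)}
    (hu : u ∈ One_iso X) (hu' : u' ∈ One_iso X) (he : e.card = 2) (h1 : e ⊆ u) (h2 : e ⊆ u') :
    u = u' := by
  by_contra hne
  have h3 := (mem_filter.1 hu).2 u' (mem_filter.1 hu').1 (Ne.symm hne)
  have h4 := card_le_card (subset_inter h1 h2)
  omega

private theorem One_three {q : ℕ} {X : Finset (Finset (Fin q))} (h3 : ∀ w ∈ X, w.card = 3)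
    {u : Finset (Fin q)} (hu : u.card = 3) (hn : u ∉ One_iso X)
    (hp : ∀ e ⊆ u, e.card = 2 → ∃ w ∈ One_iso X, e ⊆ w) :
    ∃ a b c : Finset (Fin q), (a ∈ One_iso X ∧ b ∈ One_iso X ∧ c ∈ One_iso X ∧ a ≠ b ∧ b ≠ c ∧ a ≠ c) ∧
      (∃ e ⊆ u, e.card = 2 ∧ e ⊆ a) ∧ (∃ e ⊆ u, e.card = 2 ∧ e ⊆ b) ∧
      ∃ e ⊆ u, e.card = 2 ∧ e ⊆ c := by
  obtain ⟨x, y, z, xy, xz, yz, rfl⟩ := card_eq_three.1 hu
  have e1 : ({x, y} : Finset (Fin q)) ⊆ {x, y, z} := by
    intro w hw
    simp only [mem_insert, mem_singleton] at hw ⊢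
    tauto
  have e2 : ({y, z} : Finset (Fin q)) ⊆ {x, y, z} := by
    intro w hw
    simp only [mem_insert, mem_singleton] at hw ⊢
    tauto
  have e3 : ({x, z} : Finset (Fin q)) ⊆ {x, y, z} := by
    intro w hw
    simp only [mem_insert, mem_singleton] at hw ⊢
    tauto
  obtain ⟨a, ha, ha'⟩ := hp _ e1 (card_pair xy)
  obtain ⟨b, hb, hb'⟩ := hp _ e2 (card_pair yz)
  obtain ⟨c, hc, hc'⟩ := hp _ e3 (card_pair xz)
  have key : ∀ w ∈ One_iso X, ¬ (({x, y, z} : Finset (Fin q)) ⊆ w) := by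
    intro w hw hs
    have h4 := h3 w (mem_filter.1 hw).1
    have h5 := eq_of_subset_of_card_le hs (by omega)
    exact hn (h5 ▸ hw)
  refine ⟨a, b, c, ⟨ha, hb, hc, ?_, ?_, ?_⟩, ⟨_, e1, card_pair xy, ha'⟩, ⟨_, e2, card_pair yz, hb'⟩,
    ⟨_, e3, card_pair xz, hc'⟩⟩
  · rintro rfl
    refine key a ha fun w hw => ?_
    simp only [mem_insert, mem_singleton] at hw
    rcases hw with rfl | rfl | rfl
    · exact ha' (by simp)
    · exact ha' (by simp)
    · exact hb' (by simp)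
  · rintro rfl
    refine key b hb fun w hw => ?_
    simp only [mem_insert, mem_singleton] at hw
    rcases hw with rfl | rfl | rfl
    · exact hc' (by simp)
    · exact hb' (by simp)
    · exact hb' (by simp)
  · rintro rfl
    refine key a ha fun w hw => ?_
    simp only [mem_insert, mem_singleton] at hw
    rcases hw with rfl | rfl | rfl
    · exact ha' (by simp)
    · exact ha' (by simp)
    · exact hc' (by simp)

/-- a 3-set of indices whose pairs are in triples sent onto members of `T` is sent onto a member -/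
private theorem One_cl {V : Type*} [DecidableEq V] {q : ℕ} (φ : Fin q → V) {T M : Finset (Finset V)}
    (hT : Cl T) (hM : M ⊆ T) {u : Finset (Fin q)} (hu : u.card = 3)
    (hp : ∀ e ⊆ u, e.card = 2 → ∃ w ∈ Xf φ M, e ⊆ w) : u ∈ Xf φ T := by
  have hinj : ∀ i ∈ u, ∀ j ∈ u, φ i = φ j → i = j := by
    intro i hi j hj hij
    by_contra hne
    obtain ⟨w, hw, hs⟩ := hp {i, j} (insert_subset_iff.2 ⟨hi, singleton_subset_iff.2 hj⟩) (card_pair hne)
    obtain ⟨-, hw1, hw2⟩ := mem_filter.1 hw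
    have h1 := hT.1 _ (hM hw2)
    have h2 : Set.InjOn φ (w : Set (Fin q)) := by
      rw [← card_image_iff, h1, hw1]
    exact hne (h2 (by exact_mod_cast hs (mem_insert_self _ _)) (by exact_mod_cast hs (by simp)) hij)
  refine mem_filter.2 ⟨mem_univ _, hu, hT.2 _ ?_ ?_⟩
  · rw [card_image_of_injOn fun i hi j hj h => hinj i hi j hj h, hu]
  · intro e he h2
    obtain ⟨v, hv, rfl⟩ := subset_image_iff.1 he
    have h3 : v.card = 2 := by
      rw [← h2, card_image_of_injOn fun i hi j hj h => hinj i (hv hi) j (hv hj) h]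
    obtain ⟨w, hw, hs⟩ := hp v (by exact_mod_cast hv) h3
    obtain ⟨-, hw1, hw2⟩ := mem_filter.1 hw
    exact ⟨w.image φ, hM hw2, image_subset_image hs⟩

theorem one {V : Type*} [DecidableEq V] {q : ℕ} (φ : Fin q → V) {T M : Finset (Finset V)}
    (hT : Cl T) (hM : M ⊆ T) {s : ℕ} (hs : 0 < s) :
    ((Xf φ M).filter (fun u => ∀ u' ∈ Xf φ M, u' ≠ u → (u ∩ u').card ≤ 1)).card * s ^ 2 ≤
      f q * s ^ 3 + (Xf φ T).card := by
  classical
  change (One_iso (Xf φ M)).card * s ^ 2 ≤ _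
  have hX3 : ∀ w ∈ Xf φ M, w.card = 3 := fun w hw => (mem_filter.1 hw).2.1
  set X0 := One_iso (Xf φ M) with hX0
  have hsub : ∀ w ∈ X0, w ∈ Xf φ M := fun w hw => (mem_filter.1 hw).1
  set Z : Finset (Finset (Fin q)) := univ.filter (fun u => u.card = 3 ∧ u ∉ X0 ∧
    ∀ e ⊆ u, e.card = 2 → ∃ w ∈ X0, e ⊆ w) with hZ
  have hZT : Z ⊆ Xf φ T := by
    intro u hu
    obtain ⟨-, h1, -, h2⟩ := mem_filter.1 hu
    refine One_cl φ hT hM h1 fun e he h3 => ?_
    obtain ⟨w, hw, hs⟩ := h2 e he h3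
    exact ⟨w, hsub w hw, hs⟩
  have hch : ∀ u ∈ Z, ∃ a b c : Finset (Fin q), (a ∈ X0 ∧ b ∈ X0 ∧ c ∈ X0 ∧ a ≠ b ∧ b ≠ c ∧ a ≠ c) ∧
      (∃ e ⊆ u, e.card = 2 ∧ e ⊆ a) ∧ (∃ e ⊆ u, e.card = 2 ∧ e ⊆ b) ∧
      ∃ e ⊆ u, e.card = 2 ∧ e ⊆ c := by
    intro u hu
    obtain ⟨-, h1, h2, h3⟩ := mem_filter.1 hu
    exact One_three hX3 h1 h2 h3
  choose! a b c h1 h2 h3 h4 using hch
  obtain ⟨I, hI, hI1, hI2⟩ := exists_indep X0 Z a b c h1 hs
  have hl : Lin I := by
    intro t ht u hu hne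
    exact (mem_filter.1 (hI ht)).2 u (hsub u (hI hu)) (Ne.symm hne)
  have hc : Cl I := by
    refine ⟨fun t ht => hX3 t (hsub t (hI ht)), fun u hu hp => ?_⟩
    have hin : ∀ w ∈ X0, (∃ e ⊆ u, e.card = 2 ∧ e ⊆ w) → w ∈ I := by
      rintro w hw ⟨e, he, he2, hew⟩
      obtain ⟨t, ht, het⟩ := hp e he he2
      have h5 : w = t := One_lin hw (hI ht) he2 hew het
      rw [h5]
      exact ht
    by_cases huX : u ∈ X0
    · obtain ⟨e, he, he2⟩ := exists_subset_card_eq (show 2 ≤ u.card by omega)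
      exact hin u huX ⟨e, he, he2, he⟩
    · have huZ : u ∈ Z := by
        refine mem_filter.2 ⟨mem_univ _, hu, huX, fun e he he2 => ?_⟩
        obtain ⟨t, ht, het⟩ := hp e he he2
        exact ⟨t, hI ht, het⟩
      obtain ⟨g1, g2, g3, -⟩ := h1 u huZ
      exact absurd ⟨hin _ g1 (h2 u huZ), hin _ g2 (h3 u huZ), hin _ g3 (h4 u huZ)⟩ (hI1 u huZ)
  have h5 := free_le hc hl
  have h6 := card_le_card hZT
  calc X0.card * s ^ 2 ≤ I.card * s ^ 3 + Z.card := hI2
    _ ≤ f q * s ^ 3 + (Xf φ T).card := Nat.add_le_add (Nat.mul_le_mul_right _ h5) h6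

end Pool.Agent.R63
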