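import Pool.Agent.R63.Defs

/-!
# Saturation

Paper proof: /team-store/r63.md, section 1. `M` is a subfamily of `T` with `dg M e ≤ k` for all
pairs `e`, of maximal cardinality, and `D` is the set of the pairs with `dg M e = k`.
-/

namespace Pool.Agent.R63

open Finset

/-- double counting of the pairs `(e, t)`, `e ∈ D`, `t ∈ M`, `e ⊆ t` -/
private theorem sat_double {V : Type*} [DecidableEq V] {M D : Finset (Finset V)} {k : ℕ}
    (hM : ∀ t ∈ M, t.card = 3) (hD : ∀ e ∈ D, e.card = 2 ∧ dg M e = k) :
    k * D.card ≤ 3 * M.card := by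
  have h1 : k * D.card = ∑ e ∈ D, (M.filter (fun t => e ⊆ t)).card := by
    have h0 : ∑ e ∈ D, (M.filter (fun t => e ⊆ t)).card = ∑ _e ∈ D, k :=
      Finset.sum_congr rfl (fun e he => (hD e he).2)
    rw [h0, Finset.sum_const, smul_eq_mul, mul_comm]
  have h2 : ∑ e ∈ D, (M.filter (fun t => e ⊆ t)).card =
      ∑ t ∈ M, (D.filter (fun e => e ⊆ t)).card := by
    have h := Finset.sum_card_bipartiteAbove_eq_sum_card_bipartiteBelow (s := D) (t := M)
      (fun e t : Finset V => e ⊆ t)
    simpa [Finset.bipartiteAbove, Finset.bipartiteBelow] using h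
  have h3 : ∀ t ∈ M, (D.filter (fun e => e ⊆ t)).card ≤ 3 := by
    intro t ht
    have hsub : D.filter (fun e => e ⊆ t) ⊆ t.powersetCard 2 := by
      intro e he
      rw [Finset.mem_filter] at he
      exact Finset.mem_powersetCard.2 ⟨he.2, (hD e he.1).1⟩
    refine (Finset.card_le_card hsub).trans ?_
    rw [Finset.card_powersetCard, hM t ht]
    decide
  calc k * D.card = ∑ t ∈ M, (D.filter (fun e => e ⊆ t)).card := by rw [h1, h2]
    _ ≤ ∑ _t ∈ M, 3 := Finset.sum_le_sum h3
    _ = 3 * M.card := by rw [Finset.sum_const, smul_eq_mul, mul_comm]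

private theorem sat_dg_insert {V : Type*} [DecidableEq V] {M : Finset (Finset V)}
    {t e : Finset V} (ht : t ∉ M) :
    dg (insert t M) e = if e ⊆ t then dg M e + 1 else dg M e := by
  unfold dg
  rw [Finset.filter_insert]
  split_ifs with h
  · rw [Finset.card_insert_of_notMem]
    intro hc
    exact ht (Finset.mem_filter.1 hc).1
  · rfl

theorem exists_sat {V : Type*} [Fintype V] [DecidableEq V] {T : Finset (Finset V)}
    (hT : ∀ t ∈ T, t.card = 3) {k : ℕ} (hk : 0 < k) : ∃ M ⊆ T,
    (∀ e : Finset V, e.card = 2 → dg M e ≤ k) ∧ ∃ D : Finset (Finset V),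
      (∀ e ∈ D, e.card = 2) ∧ k * D.card ≤ 3 * M.card ∧ ∀ t ∈ T, t ∉ M → ∃ e ∈ D, e ⊆ t := by
  classical
  have _ := hk
  obtain ⟨M, hM, hmax⟩ := Finset.exists_max_image
    (T.powerset.filter (fun M : Finset (Finset V) => ∀ e : Finset V, e.card = 2 → dg M e ≤ k))
    (fun M : Finset (Finset V) => M.card)
    ⟨∅, by
      rw [Finset.mem_filter]
      refine ⟨Finset.mem_powerset.2 (Finset.empty_subset _), fun e _ => ?_⟩
      simp [dg]⟩
  rw [Finset.mem_filter, Finset.mem_powerset] at hM
  obtain ⟨hMT, hMk⟩ := hM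
  refine ⟨M, hMT, hMk, univ.filter (fun e : Finset V => e.card = 2 ∧ dg M e = k), ?_, ?_, ?_⟩
  · intro e he
    exact (Finset.mem_filter.1 he).2.1
  · exact sat_double (fun t ht => hT t (hMT ht)) (fun e he => (Finset.mem_filter.1 he).2)
  · intro t ht htM
    by_contra hno
    have hno' : ∀ e : Finset V, e.card = 2 → dg M e = k → ¬ e ⊆ t := by
      intro e he1 he2 he3
      exact hno ⟨e, Finset.mem_filter.2 ⟨Finset.mem_univ _, he1, he2⟩, he3⟩
    have hin : insert t M ∈ T.powerset.filter
        (fun M : Finset (Finset V) => ∀ e : Finset V, e.card = 2 → dg M e ≤ k) := by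
      rw [Finset.mem_filter, Finset.mem_powerset]
      refine ⟨Finset.insert_subset ht hMT, fun e he => ?_⟩
      rw [sat_dg_insert htM]
      split_ifs with h
      · have h1 := hMk e he
        have h2 : dg M e ≠ k := fun h2 => hno' e he h2 h
        omega
      · exact hMk e he
    have h := hmax _ hin
    simp only [Finset.card_insert_of_notMem htM] at h
    omega

end Pool.Agent.R63
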