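import Pool.Agent.R63.One
import Pool.Agent.R63.Cntb

/-!
# Averaging over all maps

The sum of `one` over all maps `φ : Fin q → V` (/team-store/r63.md, section 6). `cnt3` gives the sums of
`(Xf φ M).card` and `(Xf φ T).card`; the 3-sets `u` which are not counted in `one` give pairs `u, u'` with two
common indices, and these are estimated by `cnt4`.
-/

namespace Pool.Agent.R63

open Finset

private theorem smp_card (q : ℕ) : (powersetCard 3 (univ : Finset (Fin q))).card = q.choose 3 := by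
  rw [card_powersetCard, card_univ, Fintype.card_fin]

private theorem smp_xf {V : Type*} [DecidableEq V] {q : ℕ} (φ : Fin q → V) (F : Finset (Finset V)) :
    Xf φ F = (powersetCard 3 (univ : Finset (Fin q))).filter fun u => u.image φ ∈ F := by
  ext u
  simp [Xf, mem_powersetCard]

private theorem smp_sum {V : Type*} [Fintype V] [DecidableEq V] {q : ℕ} {F : Finset (Finset V)}
    (hF : ∀ t ∈ F, t.card = 3) :
    (∑ φ : Fin q → V, (Xf φ F).card) * Fintype.card V ^ 3 =
      q.choose 3 * (6 * F.card * Fintype.card V ^ q) := by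
  have h1 : ∑ φ : Fin q → V, (Xf φ F).card = ∑ u ∈ powersetCard 3 (univ : Finset (Fin q)),
      ((univ : Finset (Fin q → V)).filter fun φ => u.image φ ∈ F).card := by
    simp only [smp_xf]
    exact sum_card_bipartiteAbove_eq_sum_card_bipartiteBelow
      (fun (φ : Fin q → V) (u : Finset (Fin q)) => u.image φ ∈ F)
  rw [h1, sum_mul, ← smp_card q, ← smul_eq_mul, ← sum_const]
  refine sum_congr rfl fun u hu => ?_
  exact cnt3 (mem_powersetCard.1 hu).2 hF

private theorem smp_nb {q : ℕ} {u : Finset (Fin q)} (hu : u.card = 3) :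
    ((powersetCard 3 (univ : Finset (Fin q))).filter fun u' => (u ∩ u').card = 2).card ≤ 3 * q := by
  have h1 : (powersetCard 3 (univ : Finset (Fin q))).filter (fun u' => (u ∩ u').card = 2) ⊆
      (u ×ˢ (univ : Finset (Fin q))).image fun p => insert p.2 (u.erase p.1) := by
    intro u' hu'
    rw [mem_filter, mem_powersetCard] at hu'
    obtain ⟨⟨-, hu3⟩, h2⟩ := hu'
    have h3 : (u \ u').card = 1 := by
      have := card_sdiff_add_card_inter u u'
      omega
    have h4 : (u' \ u).card = 1 := by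
      have := card_sdiff_add_card_inter u' u
      rw [inter_comm] at this
      omega
    obtain ⟨a, ha⟩ := card_eq_one.1 h3
    obtain ⟨x, hx⟩ := card_eq_one.1 h4
    have ha' : ∀ y, y ∈ u ∧ y ∉ u' ↔ y = a := by
      intro y
      rw [← mem_sdiff, ha, mem_singleton]
    have hx' : ∀ y, y ∈ u' ∧ y ∉ u ↔ y = x := by
      intro y
      rw [← mem_sdiff, hx, mem_singleton]
    rw [mem_image]
    refine ⟨(a, x), ?_, ?_⟩
    · rw [mem_product]
      exact ⟨((ha' a).2 rfl).1, mem_univ _⟩
    · ext y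
      simp only [mem_insert, mem_erase]
      constructor
      · rintro (rfl | ⟨h5, h6⟩)
        · exact ((hx' y).2 rfl).1
        · by_contra h7
          exact h5 ((ha' y).1 ⟨h6, h7⟩)
      · intro h5
        by_cases h6 : y ∈ u
        · right
          refine ⟨fun h7 => ?_, h6⟩
          exact ((ha' y).2 h7).2 h5
        · left
          exact (hx' y).1 ⟨h5, h6⟩
  calc _ ≤ ((u ×ˢ (univ : Finset (Fin q))).image fun p => insert p.2 (u.erase p.1)).card :=
        card_le_card h1
    _ ≤ (u ×ˢ (univ : Finset (Fin q))).card := card_image_le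
    _ = 3 * q := by rw [card_product, hu, card_univ, Fintype.card_fin]

/-- the pairs of 3-sets of indices with two common elements -/
private def smpP (q : ℕ) : Finset (Finset (Fin q) × Finset (Fin q)) :=
  (powersetCard 3 (univ : Finset (Fin q)) ×ˢ powersetCard 3 (univ : Finset (Fin q))).filter
    fun p => (p.1 ∩ p.2).card = 2

private theorem smp_P (q : ℕ) : (smpP q).card ≤ q.choose 3 * (3 * q) := by
  have h1 : smpP q = (powersetCard 3 (univ : Finset (Fin q))).biUnion fun u =>
      ((powersetCard 3 (univ : Finset (Fin q))).filter fun u' => (u ∩ u').card = 2).image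
        fun u' => (u, u') := by
    ext ⟨u, u'⟩
    simp only [smpP, mem_filter, mem_product, mem_biUnion, mem_image, Prod.mk.injEq]
    constructor
    · rintro ⟨⟨h1, h2⟩, h3⟩
      exact ⟨u, h1, u', ⟨h2, h3⟩, rfl, rfl⟩
    · rintro ⟨v, h1, v', ⟨h2, h3⟩, rfl, rfl⟩
      exact ⟨⟨h1, h2⟩, h3⟩
  rw [h1, ← smp_card q]
  refine card_biUnion_le_card_mul _ _ _ fun u hu => ?_
  exact le_trans card_image_le (smp_nb (mem_powersetCard.1 hu).2)

private theorem smp_le {V : Type*} [DecidableEq V] {q : ℕ} (φ : Fin q → V) (M : Finset (Finset V)) :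
    (Xf φ M).card ≤
      ((Xf φ M).filter (fun u => ∀ u' ∈ Xf φ M, u' ≠ u → (u ∩ u').card ≤ 1)).card +
        ((smpP q).filter fun p => p.1.image φ ∈ M ∧ p.2.image φ ∈ M).card := by
  have h1 : Xf φ M ⊆ (Xf φ M).filter (fun u => ∀ u' ∈ Xf φ M, u' ≠ u → (u ∩ u').card ≤ 1) ∪
      ((smpP q).filter fun p => p.1.image φ ∈ M ∧ p.2.image φ ∈ M).image Prod.fst := by
    intro u hu
    rw [mem_union, mem_filter, mem_image]
    by_cases h2 : ∀ u' ∈ Xf φ M, u' ≠ u → (u ∩ u').card ≤ 1
    · exact Or.inl ⟨hu, h2⟩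
    · right
      push Not at h2
      obtain ⟨u', hu', hne, h3⟩ := h2
      have h4 : u.card = 3 ∧ u.image φ ∈ M := by simpa [Xf] using hu
      have h5 : u'.card = 3 ∧ u'.image φ ∈ M := by simpa [Xf] using hu'
      refine ⟨(u, u'), ?_, rfl⟩
      have h6 : (u ∩ u').card = 2 := by
        have h7 : (u ∩ u').card ≤ 3 := h4.1 ▸ card_le_card inter_subset_left
        have h8 : (u ∩ u').card ≠ 3 := by
          intro h9
          have h10 : u ∩ u' = u := eq_of_subset_of_card_le inter_subset_left (by rw [h9, h4.1])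
          have h11 : u ∩ u' = u' := eq_of_subset_of_card_le inter_subset_right (by rw [h9, h5.1])
          exact hne (h11.symm.trans h10)
        omega
      simp only [smpP, mem_filter, mem_product, mem_powersetCard]
      exact ⟨⟨⟨⟨subset_univ _, h4.1⟩, subset_univ _, h5.1⟩, h6⟩, h4.2, h5.2⟩
  calc _ ≤ _ := card_le_card h1
    _ ≤ _ := card_union_le _ _
    _ ≤ _ := Nat.add_le_add_left card_image_le _

private theorem smp_sumP {V : Type*} [Fintype V] [DecidableEq V] {M : Finset (Finset V)}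
    (hM : ∀ t ∈ M, t.card = 3) {k q : ℕ} (hk : ∀ e : Finset V, e.card = 2 → dg M e ≤ k) :
    (∑ φ : Fin q → V, ((smpP q).filter fun p => p.1.image φ ∈ M ∧ p.2.image φ ∈ M).card) *
      Fintype.card V ^ 4 ≤ q.choose 3 * (3 * q) * (6 * M.card * k * Fintype.card V ^ q) := by
  have h1 : ∑ φ : Fin q → V, ((smpP q).filter fun p => p.1.image φ ∈ M ∧ p.2.image φ ∈ M).card =
      ∑ p ∈ smpP q, ((univ : Finset (Fin q → V)).filter fun φ =>
        p.1.image φ ∈ M ∧ p.2.image φ ∈ M).card :=
    sum_card_bipartiteAbove_eq_sum_card_bipartiteBelow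
      (fun (φ : Fin q → V) (p : Finset (Fin q) × Finset (Fin q)) =>
        p.1.image φ ∈ M ∧ p.2.image φ ∈ M)
  rw [h1, sum_mul]
  calc _ ≤ ∑ _p ∈ smpP q, 6 * M.card * k * Fintype.card V ^ q := by
        refine sum_le_sum fun p hp => ?_
        simp only [smpP, mem_filter, mem_product, mem_powersetCard] at hp
        exact cnt4 hp.1.1.2 hp.1.2.2 hp.2 hM hk
    _ = (smpP q).card * (6 * M.card * k * Fintype.card V ^ q) := by rw [sum_const, smul_eq_mul]
    _ ≤ _ := Nat.mul_le_mul_right _ (smp_P q)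

theorem smp {V : Type*} [Fintype V] [DecidableEq V] {T M : Finset (Finset V)} (hT : Cl T)
    (hM : M ⊆ T) {k q s : ℕ} (hs : 0 < s) (hk : ∀ e : Finset V, e.card = 2 → dg M e ≤ k)
    (hqk : 6 * q * k ≤ Fintype.card V) :
    3 * q.choose 3 * M.card * s ^ 2 ≤
      Fintype.card V ^ 3 * s ^ 3 * f q + 6 * q.choose 3 * T.card := by
  have hM3 : ∀ t ∈ M, t.card = 3 := fun t ht => hT.1 t (hM ht)
  rcases Nat.eq_zero_or_pos (Fintype.card V) with hn | hn
  · have h0 : M = ∅ := by
      rw [eq_empty_iff_forall_notMem]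
      intro t ht
      have h1 := card_le_univ t
      rw [hM3 t ht, hn] at h1
      omega
    rw [h0, card_empty]
    simp
  · have h1 := smp_sum (q := q) hM3
    have h5 := smp_sum (q := q) hT.1
    have h3 := smp_sumP (q := q) hM3 hk
    have h2 : ∑ φ : Fin q → V, (Xf φ M).card ≤
        ∑ φ : Fin q → V, ((Xf φ M).filter (fun u => ∀ u' ∈ Xf φ M, u' ≠ u → (u ∩ u').card ≤ 1)).card +
        ∑ φ : Fin q → V, ((smpP q).filter fun p => p.1.image φ ∈ M ∧ p.2.image φ ∈ M).card := by
      rw [← sum_add_distrib]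
      exact sum_le_sum fun φ _ => smp_le φ M
    have h4 : (∑ φ : Fin q → V,
        ((Xf φ M).filter (fun u => ∀ u' ∈ Xf φ M, u' ≠ u → (u ∩ u').card ≤ 1)).card) * s ^ 2 ≤
        Fintype.card V ^ q * (f q * s ^ 3) + ∑ φ : Fin q → V, (Xf φ T).card := by
      rw [sum_mul]
      calc _ ≤ ∑ φ : Fin q → V, (f q * s ^ 3 + (Xf φ T).card) :=
            sum_le_sum fun φ _ => one φ hT hM hs
        _ = _ := by
            rw [sum_add_distrib, sum_const, smul_eq_mul, card_univ, Fintype.card_fun,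
              Fintype.card_fin]
    generalize (∑ φ : Fin q → V, (Xf φ M).card) = SM at h1 h2
    generalize (∑ φ : Fin q → V, (Xf φ T).card) = ST at h4 h5
    generalize (∑ φ : Fin q → V,
      ((smpP q).filter fun p => p.1.image φ ∈ M ∧ p.2.image φ ∈ M).card) = SP at h2 h3
    generalize (∑ φ : Fin q → V,
      ((Xf φ M).filter (fun u => ∀ u' ∈ Xf φ M, u' ≠ u → (u ∩ u').card ≤ 1)).card) = SA at h2 h4
    generalize Fintype.card V = n at *
    generalize q.choose 3 = C at *
    generalize M.card = a at *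
    generalize T.card = t at *
    generalize f q = F at *
    have hD : 0 < n ^ q * n := by positivity
    refine Nat.le_of_mul_le_mul_left ?_ hD
    have e1 : SM * n ^ 4 * s ^ 2 ≤ (SA + SP) * n ^ 4 * s ^ 2 :=
      Nat.mul_le_mul_right _ (Nat.mul_le_mul_right _ h2)
    have e2 : SM * n ^ 4 * s ^ 2 = 6 * (C * a * (n ^ q * n) * s ^ 2) := by
      calc SM * n ^ 4 * s ^ 2 = (SM * n ^ 3) * (n * s ^ 2) := by ring
        _ = _ := by rw [h1]; ring
    have e3 : SP * n ^ 4 * s ^ 2 ≤ 3 * (C * a * (n ^ q * n) * s ^ 2) := by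
      calc SP * n ^ 4 * s ^ 2 ≤ C * (3 * q) * (6 * a * k * n ^ q) * s ^ 2 := Nat.mul_le_mul_right _ h3
        _ = (3 * (C * a * n ^ q * s ^ 2)) * (6 * q * k) := by ring
        _ ≤ (3 * (C * a * n ^ q * s ^ 2)) * n := Nat.mul_le_mul_left _ hqk
        _ = _ := by ring
    have e4 : SA * n ^ 4 * s ^ 2 ≤ n ^ q * n * (n ^ 3 * s ^ 3 * F + 6 * C * t) := by
      calc SA * n ^ 4 * s ^ 2 = (SA * s ^ 2) * n ^ 4 := by ring
        _ ≤ (n ^ q * (F * s ^ 3) + ST) * n ^ 4 := Nat.mul_le_mul_right _ h4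
        _ = n ^ q * (F * s ^ 3) * n ^ 4 + (ST * n ^ 3) * n := by ring
        _ = _ := by rw [h5]; ring
    have e5 : (SA + SP) * n ^ 4 * s ^ 2 = SA * n ^ 4 * s ^ 2 + SP * n ^ 4 * s ^ 2 := by ring
    have e6 : n ^ q * n * (3 * C * a * s ^ 2) = 3 * (C * a * (n ^ q * n) * s ^ 2) := by ring
    rw [e6]
    omega

end Pool.Agent.R63
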