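import Pool.Agent.R63.Smp
import Pool.Agent.R63.Sat

/-!
# One scale

`k = n / (6 * q)`, `s = 10`: the saturated subfamily of `exists_sat` is small by `smp`; the members of `T` which contain
no pair of `D` form the closed family `T'`.
-/

namespace Pool.Agent.R63

open Finset

private theorem step_choose {q : ℕ} (hq : 8 ≤ q) :
    6 * q.choose 3 ≤ q ^ 3 ∧ q ^ 3 ≤ 16 * q.choose 3 := by
  obtain ⟨m, rfl⟩ : ∃ m, q = m + 3 := ⟨q - 3, by omega⟩
  have h0 : (m + 3).choose 3 * 6 = (m + 3) * (m + 2) * (m + 1) := by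
    have h := Nat.add_one_mul_choose_eq (m + 2) 2
    have h2 := Nat.add_one_mul_choose_eq (m + 1) 1
    simp only [Nat.choose_one_right] at h h2
    have h3 : (m + 2 + 1).choose (2 + 1) = (m + 3).choose 3 := rfl
    have h4 : (m + 1 + 1).choose (1 + 1) = (m + 2).choose 2 := rfl
    rw [h3] at h
    rw [h4] at h2
    nlinarith
  constructor
  · nlinarith
  · have h5 : 5 ≤ m := by omega
    nlinarith [mul_le_mul h5 h5 (Nat.zero_le _) (Nat.zero_le _)]

theorem step {V : Type*} [Fintype V] [DecidableEq V] {T : Finset (Finset V)} (hT : Cl T) {q : ℕ}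
    (hq : 8 ≤ q) (hn : 6 * q ≤ Fintype.card V)
    (ht : T.card * q ^ 3 ≤ 1000 * f q * Fintype.card V ^ 3) :
    ∃ D T' : Finset (Finset V), (∀ e ∈ D, e.card = 2) ∧ T' ⊆ T ∧ Cl T' ∧
      (∀ t ∈ T, t ∉ T' → ∃ e ∈ D, e ⊆ t) ∧ D.card * q ^ 2 ≤ 3840 * f q * Fintype.card V ^ 2 ∧
      T'.card * (2 * q) ^ 3 ≤ 1000 * f q * Fintype.card V ^ 3 := by
  classical
  obtain ⟨hC1, hC2⟩ := step_choose hq
  set n := Fintype.card V with hndef
  have h6q : 0 < 6 * q := by omega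
  have hk : 0 < n / (6 * q) := Nat.div_pos hn h6q
  have hk1 : 6 * q * (n / (6 * q)) ≤ n := Nat.mul_div_le _ _
  have hk2 : n ≤ 12 * q * (n / (6 * q)) := by
    have h1 := Nat.lt_mul_div_succ n h6q
    have h2 : 6 * q * (n / (6 * q) + 1) ≤ 12 * q * (n / (6 * q)) := by
      have h3 : n / (6 * q) + 1 ≤ 2 * (n / (6 * q)) := by omega
      calc 6 * q * (n / (6 * q) + 1) ≤ 6 * q * (2 * (n / (6 * q))) := Nat.mul_le_mul_left _ h3
        _ = 12 * q * (n / (6 * q)) := by ring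
    exact h1.le.trans h2
  generalize n / (6 * q) = k at hk hk1 hk2
  obtain ⟨M, hM, hMk, D, hD2, hkD, hcov⟩ := exists_sat hT.1 hk
  have hs := smp hT hM (s := 10) (by norm_num) hMk hk1
  rw [← hndef] at hs
  -- the size of `M`
  have hCT : 6 * q.choose 3 * T.card ≤ 1000 * f q * n ^ 3 := by
    calc 6 * q.choose 3 * T.card ≤ q ^ 3 * T.card := Nat.mul_le_mul_right _ hC1
      _ = T.card * q ^ 3 := mul_comm _ _
      _ ≤ _ := ht
  have hM1 : 300 * (q.choose 3 * M.card) ≤ 2000 * (f q * n ^ 3) := by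
    have e1 : 3 * q.choose 3 * M.card * 10 ^ 2 = 300 * (q.choose 3 * M.card) := by ring
    have e2 : n ^ 3 * 10 ^ 3 * f q = 1000 * (f q * n ^ 3) := by ring
    have e3 : 1000 * f q * n ^ 3 = 1000 * (f q * n ^ 3) := by ring
    rw [e1, e2] at hs
    rw [e3] at hCT
    omega
  have hM2 : 3 * (q ^ 3 * M.card) ≤ 320 * (f q * n ^ 3) := by
    have h1 : q ^ 3 * M.card ≤ 16 * (q.choose 3 * M.card) := by
      calc q ^ 3 * M.card ≤ 16 * q.choose 3 * M.card := Nat.mul_le_mul_right _ hC2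
        _ = _ := by ring
    omega
  have hsub : T.filter (fun t => ∀ e ∈ D, ¬ e ⊆ t) ⊆ M := by
    intro t ht'
    rw [mem_filter] at ht'
    by_contra hc
    obtain ⟨e, he, het⟩ := hcov t ht'.1 hc
    exact ht'.2 e he het
  refine ⟨D, T.filter (fun t => ∀ e ∈ D, ¬ e ⊆ t), hD2, filter_subset _ _, ⟨?_, ?_⟩, ?_, ?_, ?_⟩
  · intro t ht'
    exact hT.1 t (mem_filter.1 ht').1
  · intro u hu hp
    rw [mem_filter]
    refine ⟨hT.2 u hu fun e he he2 => ?_, fun e he heu => ?_⟩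
    · obtain ⟨t, ht', het⟩ := hp e he he2
      exact ⟨t, (mem_filter.1 ht').1, het⟩
    · obtain ⟨t, ht', het⟩ := hp e heu (hD2 e he)
      exact (mem_filter.1 ht').2 e he het
  · intro t ht' hc
    by_contra hne
    push Not at hne
    exact hc (mem_filter.2 ⟨ht', hne⟩)
  · have hn0 : 0 < n := by omega
    refine Nat.le_of_mul_le_mul_left ?_ hn0
    calc n * (D.card * q ^ 2) ≤ 12 * q * k * (D.card * q ^ 2) := Nat.mul_le_mul_right _ hk2
      _ = 12 * q ^ 3 * (k * D.card) := by ring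
      _ ≤ 12 * q ^ 3 * (3 * M.card) := Nat.mul_le_mul_left _ hkD
      _ = 12 * (3 * (q ^ 3 * M.card)) := by ring
      _ ≤ 12 * (320 * (f q * n ^ 3)) := Nat.mul_le_mul_left _ hM2
      _ = n * (3840 * f q * n ^ 2) := by ring
  · have h1 := card_le_card hsub
    have h2 : q ^ 3 * (T.filter (fun t => ∀ e ∈ D, ¬ e ⊆ t)).card ≤ q ^ 3 * M.card :=
      Nat.mul_le_mul_left _ h1
    have e1 : (T.filter (fun t => ∀ e ∈ D, ¬ e ⊆ t)).card * (2 * q) ^ 3 =
        8 * (q ^ 3 * (T.filter (fun t => ∀ e ∈ D, ¬ e ⊆ t)).card) := by ring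
    have e2 : 1000 * f q * n ^ 3 = 1000 * (f q * n ^ 3) := by ring
    rw [e1, e2]
    omega

end Pool.Agent.R63
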